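import Pool.Agent.Helper19.PM.Goals
import Pool.Agent.Helper68.VN.AsmP

/-!
# Project P1M (MP_a41896_nt, full case): assembly of `S_P1M`
-/

set_option autoImplicit false

open MvPolynomial

namespace Pool.Agent.Helper19.PM

open WeierstrassCurve Height Height.AdmissibleAbsValues
open Pool.Agent.Helper29.BL Pool.Agent.Helper92.Ru Pool.Agent.Helper42.SG
open Pool.Agent.Helper77.SGC (N0)
open Pool.Agent.Helper60.HC (Lo nrs)
open Pool.Agent.Helper68.VN hiding xs Good nz

noncomputable section

/-- the univariate polynomial of a polynomial which involves `X_i` only -/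
def uni {K : Type} [Field K] {σ : Type} (D : ℕ) (i : σ) (f : MvPolynomial σ K) : Polynomial K :=
  ∑ k ∈ Finset.range (D + 1), Polynomial.C (coeff (Finsupp.single i k) f) * Polynomial.X ^ k

lemma uni_coeff {K : Type} [Field K] {σ : Type} (D : ℕ) (i : σ) (f : MvPolynomial σ K) (k : ℕ) :
    (uni D i f).coeff k = if k ≤ D then coeff (Finsupp.single i k) f else 0 := by
  unfold uni
  rw [Polynomial.finset_sum_coeff]
  simp only [Polynomial.coeff_C_mul, Polynomial.coeff_X_pow, mul_ite, mul_one, mul_zero]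
  rw [Finset.sum_ite_eq]
  simp only [Finset.mem_range, Nat.lt_succ_iff]

lemma uni_deg {K : Type} [Field K] {σ : Type} (D : ℕ) (i : σ) (f : MvPolynomial σ K) :
    (uni D i f).natDegree ≤ D := by
  rw [Polynomial.natDegree_le_iff_coeff_eq_zero]
  intro k hk
  rw [uni_coeff, if_neg (by omega)]

lemma aeval_uni {K : Type} [Field K] {σ : Type} [DecidableEq σ] (D : ℕ) (i : σ)
    (f : MvPolynomial σ K) (h : ∀ k, degreeOf k f ≤ wU D i k) :
    Polynomial.aeval (X i : MvPolynomial σ K) (uni D i f) = f := by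
  ext m
  unfold uni
  rw [map_sum, coeff_sum]
  have h1 : ∀ k, coeff m (Polynomial.aeval (X i : MvPolynomial σ K)
      (Polynomial.C (coeff (Finsupp.single i k) f) * Polynomial.X ^ k)) =
      if Finsupp.single i k = m then coeff (Finsupp.single i k) f else 0 := by
    intro k
    rw [map_mul, Polynomial.aeval_C, map_pow, Polynomial.aeval_X, MvPolynomial.algebraMap_eq,
      coeff_C_mul, coeff_X_pow]
    split_ifs <;> simp
  simp only [h1]
  by_cases hm : m ∈ f.support
  · have hmi : m = Finsupp.single i (m i) := by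
      ext k
      by_cases hk : k = i
      · rw [hk, Finsupp.single_eq_same]
      · rw [Finsupp.single_apply, if_neg (fun h' => hk h'.symm)]
        have h2 := (monomial_le_degreeOf k hm).trans (h k)
        unfold wU at h2
        rw [if_neg hk] at h2
        omega
    have hmD : m i < D + 1 := by
      have h2 := (monomial_le_degreeOf i hm).trans (h i)
      unfold wU at h2
      rw [if_pos rfl] at h2
      omega
    rw [Finset.sum_eq_single_of_mem (m i) (Finset.mem_range.mpr hmD)]
    · rw [if_pos hmi.symm, ← hmi]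
    · intro k _ hk
      rw [if_neg]
      intro h3
      apply hk
      rw [← h3, Finsupp.single_eq_same]
  · rw [notMem_support_iff.mp hm]
    refine Finset.sum_eq_zero fun k _ => ?_
    split_ifs with h2
    · rw [h2]; exact notMem_support_iff.mp hm
    · rfl

/-- Theorem P1M from PGW and CENU -/
theorem p1m (hPG : PGW) (hU : CENU) : S_P1M := by
  classical
  intro K _ _ _ σ _ _ W hW H c₀ hH hσ D C0 ε hD hC0 hε
  haveI : Nonempty σ := Fintype.card_pos_iff.mp (by omega)
  obtain ⟨c, C, hc, hC, hcen⟩ := hU K σ D hD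
  obtain ⟨k0, hk0⟩ := exists_k0 ε hε
  obtain ⟨n, hn⟩ := count1 2 c k0 le_rfl
  have hn' : 2 * (n + 1) * 4 ^ Fintype.card σ * c * k0 ^ Fintype.card σ *
      (2 * (n + 1) + 2) ^ (Fintype.card σ - Fintype.card σ) *
      (2 * (n + 1) + (n + 1) + 1) ^ Fintype.card σ ≤
      (n + 1 + 1) ^ Fintype.card σ * (n + 1) ^ Fintype.card σ := by
    rw [hσ]; exact hn
  set C1 : ℝ := C * (1 + C0) with hC1
  have hC10 : 0 ≤ C1 := by positivity
  obtain ⟨D', C', θ, K0, hθ, hC', h⟩ := hPG K σ W hW H c₀ hH σ (wU D)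
    (fun k => ⟨k, by unfold wU; rw [if_pos rfl]; exact hD⟩) (Fintype.card σ) c le_rfl
    n (n + 1) (n + 1) k0 ((2 * (n + 1) + (n + 1) + 1) ^ Fintype.card σ) ε C1 (by omega) (by omega)
    le_rfl hε hk0 hC10 hn'
  refine ⟨n, max D' n, C', θ, K0, hθ, hC', fun f x x0 e T Q hAl hf0 hfd hfh => ?_⟩
  have hQ1 : (1 : ℝ) ≤ Q := (one_le_pow₀ (by norm_num)).trans (hAl.le 0)
  have hQ0 : (0 : ℝ) ≤ Q := zero_le_one.trans hQ1
  have hq : ∀ j : Fin (n + 1), (0 : ℝ) < 4 ^ e j := fun j => by positivity
  have hfu : ∀ j i, Polynomial.aeval (X i : MvPolynomial σ K) (uni D i (f j i)) = f j i :=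
    fun j i => aeval_uni D i (f j i) (hfd j i)
  have hcenf : ∀ j, cenU (fun i => uni D i (f j i)) = f j := by
    intro j
    funext i
    exact hfu j i
  have hA : ∀ j : Fin (n + 1), 0 ≤ C0 * (Q / 4 ^ e j) := fun j => by
    have := (hq j).le
    positivity
  have hget := fun j => hcen (fun i => uni D i (f j i)) (C0 * (Q / 4 ^ e j)) (hA j)
    (fun i => ⟨fun h0 => hf0 j i (by rw [← hfu j i, h0, map_zero]), uni_deg D i _⟩)
    (fun i k => by
      rw [uni_coeff]
      split_ifs
      · exact hfh j i _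
      · rw [logHeight₁_zero]
        exact hA j)
  choose d G hd hdb hGp hGs hGa hGc hG using hget
  have hmul : ∀ j : Fin (n + 1), (4 : ℝ) ^ e j * (C * (1 + C0 * (Q / 4 ^ e j))) ≤ C1 * Q := by
    intro j
    have h1 : (4 : ℝ) ^ e j * (C * (1 + C0 * (Q / 4 ^ e j))) = C * (4 ^ e j + C0 * Q) := by
      have := (hq j).ne'
      field_simp
    rw [h1, hC1, mul_assoc]
    refine mul_le_mul_of_nonneg_left ?_ hC
    have := hAl.le j
    linarith
  have hpow : ∀ (j : Fin (n + 1)) (y : ℝ), 0 ≤ y → y ≤ Real.exp (C * (1 + C0 * (Q / 4 ^ e j))) →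
      y ^ (4 ^ e j) ≤ Real.exp (C1 * Q) := by
    intro j y hy0 hy
    calc y ^ (4 ^ e j) ≤ Real.exp (C * (1 + C0 * (Q / 4 ^ e j))) ^ (4 ^ e j) :=
          pow_le_pow_left₀ hy0 hy _
      _ = Real.exp ((4 : ℝ) ^ e j * (C * (1 + C0 * (Q / 4 ^ e j)))) := by
          rw [← Real.exp_nat_mul]
          push_cast
          rfl
      _ ≤ _ := Real.exp_le_exp.mpr (hmul j)
  have hSl : SlowW e d G (C1 * Q) := by
    refine ⟨hd, hGp, fun j => hpow j _ (Nat.cast_nonneg _) (hdb j), fun j φ => ?_, fun j => ?_⟩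
    · exact hpow j _ (zero_le_one.trans ((hGp j).one_le _)) (hGa j φ)
    · exact (mul_le_mul_of_nonneg_left (hGs j) (hq j).le).trans (hmul j)
  have hcoef : ∀ (j : Fin (n + 1)) (k : σ) (m : σ →₀ ℕ) (v : AbsoluteValue K ℝ),
      v (coeff m (f j k)) ≤ G j v := by
    intro j k m v
    by_cases hm : m ∈ (f j k).support
    · have hmi : m = Finsupp.single k (m k) := by
        ext l
        by_cases hl : l = k
        · rw [hl, Finsupp.single_eq_same]
        · rw [Finsupp.single_apply, if_neg (fun h' => hl h'.symm)]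
          have h2 := (monomial_le_degreeOf l hm).trans (hfd j k l)
          unfold wU at h2
          rw [if_neg hl] at h2
          omega
      have hmD : m k ≤ D := by
        have h2 := (monomial_le_degreeOf k hm).trans (hfd j k k)
        unfold wU at h2
        rw [if_pos rfl] at h2
        exact h2
      have h3 := hGc j k (m k) v
      rw [uni_coeff, if_pos hmD, ← hmi] at h3
      exact h3
    · rw [notMem_support_iff.mp hm, map_zero]
      exact zero_le_one.trans ((hGp j).one_le v)
  have hUc : Fintype.card (σ → Fin (2 * (n + 1) + (n + 1) + 1)) ≤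
      (2 * (n + 1) + (n + 1) + 1) ^ Fintype.card σ := by
    rw [Fintype.card_fun, Fintype.card_fin]
  rcases h f x x0 e d G T Q hAl hSl hfd hcoef
    (fun j N => by
      obtain ⟨T', hT', gr, E, r, h1, h2⟩ := hG j N
      rw [hcenf j] at h2
      exact ⟨T', hT', gr, E, r, h1, h2⟩)
    (σ → Fin (2 * (n + 1) + (n + 1) + 1)) _ hUc
    (redD_triv _ _ (mul_nonneg hC10 hQ0)) with ⟨j, hj⟩ | hb
  · exact Or.inl ⟨j, hj.toLo (le_max_left _ _) le_rfl⟩
  · exact Or.inr (hb.toLo (by omega) le_rfl)

end

end Pool.Agent.Helper19.PM
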