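import Pool.Agent.Helper19.PM.GoalsS
import Pool.Agent.Helper68.VN.AsmP
import Pool.Agent.Helper51.HC.LOR

/-!
# Project P1S (MP_a41896_nt, plan TN): assembly of `S_P1S`
-/

set_option autoImplicit false

open MvPolynomial

namespace Pool.Agent.Helper19.PM

open WeierstrassCurve Height Height.AdmissibleAbsValues
open Pool.Agent.Helper29.BL Pool.Agent.Helper92.Ru Pool.Agent.Helper42.SG
open Pool.Agent.Helper5.UN (CodimGT cH)
open Pool.Agent.Helper60.HC (Lo nrs)
open Pool.Agent.Helper92.PN (uu fl)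
open Pool.Agent.Helper68.VN hiding xs Good nz

noncomputable section

lemma LowS.restr {K : Type} [Field K] [NumberField K] {σ : Type} [Fintype σ] [DecidableEq σ]
    {S : Finset σ} {D D' : ℕ} {A A' : ℝ} {x : σ → K}
    (h : LowS D A (fun i : {i // i ∉ S} => x i.1)) (hD : D ≤ D') (hA : A ≤ A') :
    Lo (Finset.univ \ S) D' A' x := by
  obtain ⟨F, h0, h1, h2, h3⟩ := h
  have hinj : Function.Injective (Subtype.val : {i // i ∉ S} → σ) := Subtype.val_injective
  refine ⟨rename Subtype.val F, ?_, ?_, ?_, ?_, ?_⟩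
  · exact fun h => h0 (rename_injective _ hinj (by rw [h, map_zero]))
  · intro i
    by_cases hi : i ∈ S
    · rw [Pool.Agent.Helper51.HC.LOR.deg_out Subtype.val F i (by
        rintro ⟨j, hj⟩
        exact j.2 (hj ▸ hi))]
      exact Nat.zero_le _
    · have h4 := degreeOf_rename_of_injective hinj (p := F) (⟨i, hi⟩ : {i // i ∉ S})
      rw [h4]
      exact (h1 _).trans hD
  · intro i hi
    have hiS : i ∈ S := by
      by_contra h
      exact hi (Finset.mem_sdiff.mpr ⟨Finset.mem_univ _, h⟩)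
    exact Pool.Agent.Helper51.HC.LOR.deg_out Subtype.val F i (by
      rintro ⟨j, hj⟩
      exact j.2 (hj ▸ hiS))
  · rw [eval_rename]
    exact h2
  · rw [Pool.Agent.Helper51.HC.LOR.PH_rename _ hinj]
    exact h3.trans hA

lemma nrs_restr {K : Type} [Field K] [DecidableEq K] {σ : Type} [Fintype σ] [DecidableEq σ]
    {W : σ → Affine K} (H : ∀ i, (W i).Point → ℝ) (hH : ∀ i z, 0 ≤ H i z) (S : Finset σ)
    (z : ∀ i, (W i).Point) :
    nrs (W := fun i : {i // i ∉ S} => W i.1) (fun i => H i.1) (fun i => z i.1) ≤ nrs H z := by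
  unfold nrs
  have h1 : ∑ i : {i // i ∉ S}, H i.1 (z i.1) =
      ∑ i ∈ Finset.univ.filter (fun i => i ∉ S), H i (z i) :=
    (Finset.sum_subtype (p := fun i => i ∉ S) (Finset.univ.filter (fun i => i ∉ S))
      (fun i => by simp) (fun i => H i (z i))).symm
  rw [h1]
  exact Finset.sum_le_sum_of_subset_of_nonneg (Finset.filter_subset _ _)
    (fun i _ _ => hH i (z i))

/-- Theorem P1S from PGW, SPECS, CENV, CWS -/
theorem p1s (hPG : PGW) (hSP : SPECS) (hCV : CENV) (hCW : CWS) : S_P1S := by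
  classical
  intro K _ _ _ σ _ _ W hW H c₀ hH D J _ f hdeg hcod S C0 ε hS hD hC0 hε
  have : Nonempty {i // i ∉ S} := Fintype.card_pos_iff.mp (by omega)
  obtain ⟨Δ, k₁, CS, hΔ0, hΔd, hk1, hk2, hCS, hspec⟩ := hSP K σ S J D 1 f hdeg hcod hS
  obtain ⟨c, CV, hc, hCV0, hcen⟩ := hCV K {i // i ∉ S} J D 1 k₁ hS hD hk1 hk2
  have hε2 : 0 < ε / 2 := by linarith
  obtain ⟨k0, hk0⟩ := exists_k0 (ε / 2) hε2
  obtain ⟨n, hn⟩ := count1 (Fintype.card {i // i ∉ S}) c k0 hS
  set C1 : ℝ := CV * (1 + CS * (1 + S.card * C0)) with hC1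
  have hC10 : 0 ≤ C1 := by positivity
  obtain ⟨D', C', θ, K0, hθ, hC', h⟩ := hPG K {i // i ∉ S} (fun i => W i.1) (fun i => hW i.1)
    (fun i => H i.1) c₀ (fun i => hH i.1) J (fun _ _ => D)
    (fun _ => ⟨Classical.arbitrary _, hD⟩) 2 c hS
    n (n + 1) (n + 1) k0 ((2 * (n + 1) + (n + 1) + 1) ^ Fintype.card {i // i ∉ S}) (ε / 2) C1
    (by omega) (by omega) le_rfl hε2 hk0 hC10 hn
  refine ⟨Δ, n, max D' n, C', θ, max K0 (2 * (D * (S.card * C0)) / ε), hΔ0, hθ, hC',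
    fun x x0 e T Q hAl hΔx => ?_⟩
  have hQ1 : (1 : ℝ) ≤ Q := (one_le_pow₀ (by norm_num)).trans (hAl.le 0)
  have hQ0 : (0 : ℝ) ≤ Q := zero_le_one.trans hQ1
  have hq : ∀ j : Fin (n + 1), (0 : ℝ) < 4 ^ e j := fun j => by positivity
  have hHn : ∀ i (z : (W i).Point), 0 ≤ H i z := fun i z => (hH i).quad.nonneg z
  have hK0 : K0 ≤ max K0 (2 * (D * (S.card * C0)) / ε) := le_max_left _ _
  have hsum : ∀ j : Fin (n + 1), ∑ i ∈ S, logHeight₁ (Pool.Agent.Helper60.HC.xs (x j) i) ≤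
      S.card * C0 * (Q / 4 ^ e j) := by
    intro j
    calc ∑ i ∈ S, logHeight₁ (Pool.Agent.Helper60.HC.xs (x j) i)
        ≤ ∑ _i ∈ S, C0 * (Q / 4 ^ e j) := Finset.sum_le_sum fun i hi => hAl.slow j i hi
      _ = S.card * C0 * (Q / 4 ^ e j) := by
          rw [Finset.sum_const, nsmul_eq_mul]; ring
  have hsum0 : ∀ j : Fin (n + 1), 0 ≤ ∑ i ∈ S, logHeight₁ (Pool.Agent.Helper60.HC.xs (x j) i) :=
    fun j => Finset.sum_nonneg fun i _ => zero_le_logHeight₁ _
  set A : Fin (n + 1) → ℝ := fun j =>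
    CS * (1 + ∑ i ∈ S, logHeight₁ (Pool.Agent.Helper60.HC.xs (x j) i)) with hAdef
  have hA0 : ∀ j, 0 ≤ A j := fun j => mul_nonneg hCS (by linarith [hsum0 j])
  have hget : ∀ j : Fin (n + 1), ∃ (d : ℕ) (G : AbsoluteValue K ℝ → ℝ), 0 < d ∧
      (d : ℝ) ≤ Real.exp (CV * (1 + A j)) ∧ PlC G ∧
      PS (fun v => Real.log (G v)) ≤ CV * (1 + A j) ∧
      (∀ φ : K →+* ℂ, G (NumberField.place φ) ≤ Real.exp (CV * (1 + A j))) ∧
      (∀ k m v, v (coeff m (fT S (Pool.Agent.Helper60.HC.xs (x j)) (f k))) ≤ G v) ∧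
      ∀ N : ℕ, ∃ (T : Type) (_ : Fintype T) (gr : T → ℕ) (E : T → MvPolynomial {i // i ∉ S} K)
        (r : T → ({i // i ∉ S} → ℕ) → K), CenC (1 + 1) c d G N T gr E r ∧
          CenN (fun k => fT S (Pool.Agent.Helper60.HC.xs (x j)) (f k)) (fun _ _ => D) G N gr E := by
    intro j
    obtain ⟨hf1, cc, y, HH, hy, hHd, hid, hc1, hy1, hH1⟩ :=
      hspec (Pool.Agent.Helper60.HC.xs (x j)) (hΔx j)
    have hd2 := (hCW K σ S J D f (Pool.Agent.Helper60.HC.xs (x j)) hdeg (hAl.off j)).2.1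
    exact hcen _ cc y HH (A j) (hA0 j) hd2 hy hHd hid hf1 hc1 hy1 hH1
  choose d G hd hdb hGp hGs hGa hGc hG using hget
  have hmul : ∀ j : Fin (n + 1), (4 : ℝ) ^ e j * (CV * (1 + A j)) ≤ C1 * Q := by
    intro j
    have h1 : (4 : ℝ) ^ e j * A j ≤ CS * (1 + S.card * C0) * Q := by
      have h2 : A j ≤ CS * (1 + S.card * C0 * (Q / 4 ^ e j)) :=
        mul_le_mul_of_nonneg_left (by linarith [hsum j]) hCS
      calc (4 : ℝ) ^ e j * A j ≤ 4 ^ e j * (CS * (1 + S.card * C0 * (Q / 4 ^ e j))) :=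
            mul_le_mul_of_nonneg_left h2 (hq j).le
        _ = CS * (4 ^ e j + S.card * C0 * Q) := by
            have := (hq j).ne'
            field_simp
        _ ≤ CS * ((1 + S.card * C0) * Q) := by
            refine mul_le_mul_of_nonneg_left ?_ hCS
            have := hAl.le j
            nlinarith
        _ = _ := by ring
    have h3 : (4 : ℝ) ^ e j * (CV * (1 + A j)) = CV * (4 ^ e j + 4 ^ e j * A j) := by ring
    rw [h3, hC1, mul_assoc]
    refine mul_le_mul_of_nonneg_left ?_ hCV0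
    have := hAl.le j
    linarith
  have hpow : ∀ (j : Fin (n + 1)) (y : ℝ), 0 ≤ y → y ≤ Real.exp (CV * (1 + A j)) →
      y ^ (4 ^ e j) ≤ Real.exp (C1 * Q) := by
    intro j y hy0 hy
    calc y ^ (4 ^ e j) ≤ Real.exp (CV * (1 + A j)) ^ (4 ^ e j) := pow_le_pow_left₀ hy0 hy _
      _ = Real.exp ((4 : ℝ) ^ e j * (CV * (1 + A j))) := by
          rw [← Real.exp_nat_mul]
          push_cast
          rfl
      _ ≤ _ := Real.exp_le_exp.mpr (hmul j)
  have hSl : SlowW e d G (C1 * Q) := by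
    refine ⟨hd, hGp, fun j => hpow j _ (Nat.cast_nonneg _) (hdb j), fun j φ => ?_, fun j => ?_⟩
    · exact hpow j _ (zero_le_one.trans ((hGp j).one_le _)) (hGa j φ)
    · exact (mul_le_mul_of_nonneg_left (hGs j) (hq j).le).trans (hmul j)
  have hCWj := fun j => hCW K σ S J D f (Pool.Agent.Helper60.HC.xs (x j)) hdeg (hAl.off j)
  have hbT : K0 * Q ≤ T := (mul_le_mul_of_nonneg_right hK0 hQ0).trans hAl.bigT
  have hDS : D * (S.card * C0 * Q) ≤ ε / 2 * T := by
    have h1 : 2 * (D * (S.card * C0)) / ε * Q ≤ T :=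
      (mul_le_mul_of_nonneg_right (le_max_right _ _) hQ0).trans hAl.bigT
    have h2 : D * (S.card * C0 * Q) = ε / 2 * (2 * (D * (S.card * C0)) / ε * Q) := by
      field_simp
    rw [h2]
    exact mul_le_mul_of_nonneg_left h1 hε2.le
  have hxs : ∀ j, (fun i : {i // i ∉ S} => Pool.Agent.Helper60.HC.xs (x j) i.1) =
      Pool.Agent.Helper60.HC.xs (W := fun i : {i // i ∉ S} => W i.1) (fun i => x j i.1) :=
    fun j => rfl
  have hAlW : AlW (W := fun i : {i // i ∉ S} => W i.1) (fun i => H i.1) (fun (_ : J) _ => D) (n + 1)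
      (fun j k => fT S (Pool.Agent.Helper60.HC.xs (x j)) (f k)) θ (ε / 2) K0
      (fun j i => x j i.1) (fun i => x0 i.1) e T Q := by
    refine ⟨fun j i => hAl.nd j i.1, fun i => hAl.nd0 i.1, fun j => ?_, ?_, fun j => ?_,
      fun j => ?_, fun j => ?_, fun j => hK0.trans (hAl.big j), hAl.le, hbT, fun j j' hj => ?_⟩
    · exact (mul_le_mul_of_nonneg_left (nrs_restr H hHn S (x j)) (hq j).le).trans (hAl.up j)
    · exact (nrs_restr H hHn S x0).trans hAl.up0
    · exact (nrs_restr H hHn S ((2 ^ e j) • x j - x0)).trans (hAl.near j)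
    · have h1 := hAl.exc j
      have h2 := (hCWj j).2.2
      have h3 : (4 : ℝ) ^ e j * (D * ∑ i ∈ S, logHeight₁ (Pool.Agent.Helper60.HC.xs (x j) i)) ≤
          D * (S.card * C0 * Q) := by
        have h4 := mul_le_mul_of_nonneg_left (hsum j) (hq j).le
        have h5 : (4 : ℝ) ^ e j * (S.card * C0 * (Q / 4 ^ e j)) = S.card * C0 * Q := by
          have := (hq j).ne'
          field_simp
        rw [h5] at h4
        have hD0 : (0 : ℝ) ≤ D := Nat.cast_nonneg _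
        calc (4 : ℝ) ^ e j * (D * ∑ i ∈ S, logHeight₁ (Pool.Agent.Helper60.HC.xs (x j) i))
            = D * (4 ^ e j * ∑ i ∈ S, logHeight₁ (Pool.Agent.Helper60.HC.xs (x j) i)) := by ring
          _ ≤ _ := mul_le_mul_of_nonneg_left h4 hD0
      have h6 := mul_le_mul_of_nonneg_left h2 (hq j).le
      rw [mul_add] at h6
      rw [hxs j] at h6
      linarith
    · obtain ⟨k, hk⟩ := hAl.off j
      refine ⟨k, ?_⟩
      rw [← hxs j, (hCWj j).1]
      exact hk
    · exact (mul_le_mul_of_nonneg_right hK0 (hq j').le).trans (hAl.grow j j' hj)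
  have hUc : Fintype.card ({i // i ∉ S} → Fin (2 * (n + 1) + (n + 1) + 1)) ≤
      (2 * (n + 1) + (n + 1) + 1) ^ Fintype.card {i // i ∉ S} := by
    rw [Fintype.card_fun, Fintype.card_fin]
  rcases h (fun j k => fT S (Pool.Agent.Helper60.HC.xs (x j)) (f k)) (fun j i => x j i.1)
    (fun i => x0 i.1) e d G T Q hAlW hSl (fun j k i => (hCWj j).2.1 k i) hGc hG
    ({i // i ∉ S} → Fin (2 * (n + 1) + (n + 1) + 1)) _ hUc
    (redD_triv _ _ (mul_nonneg hC10 hQ0)) with ⟨j, hj⟩ | hb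
  · exact Or.inl ⟨j, LowS.restr hj (le_max_left _ _) le_rfl⟩
  · exact Or.inr (LowS.restr hb (by omega) le_rfl)

end

end Pool.Agent.Helper19.PM
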