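import Pool.Agent.Helper68.VN.GoalsT

/-!
# Project P1M (MP_a41896_nt, full case): theorem P1 with MOVING centres

Every block `j` has its own centre `f j : J → MvPolynomial σ K`; the multidegrees `w : J → σ → ℕ` are common.  The constants
of the block `j` are a natural number `d j` (a denominator) and a function `G j` of the places (`1 ≤ G j v`), both SLOW:
`d j ^ (4 ^ e j) ≤ exp L`, `G j v ^ (4 ^ e j) ≤ exp L` at the places of embeddings, `∑_v log (G j v)` small.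
Everything else is as in `Helper68/VN` (theorem PG).
-/

set_option autoImplicit false

open MvPolynomial

namespace Pool.Agent.Helper19.PM

open WeierstrassCurve Height
open Pool.Agent.Helper29.BL Pool.Agent.Helper92.Ru Pool.Agent.Helper42.SG
open Pool.Agent.Helper77.SGC (N0)
open Pool.Agent.Helper60.HC (Lo nrs)
open Pool.Agent.Helper68.VN hiding xs Good nz

noncomputable section

section centre

variable {K : Type} [Field K] {σ : Type}

/-- the centre data of one block, without the norms (fields as in `CenR`) -/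
structure CenC [NumberField K] [Fintype σ] (p c d : ℕ) (B : AbsoluteValue K ℝ → ℝ) (N : ℕ)
    (T : Type) [Fintype T] (gr : T → ℕ) (E : T → MvPolynomial σ K) (r : T → (σ → ℕ) → K) :
    Prop where
  card : Fintype.card T ≤ c ^ (N + 1)
  bad : ∀ k : ℕ, Nat.card {t : T // gr t < k} ≤ c * k ^ p * (N + 1) ^ (Fintype.card σ - p)
  bd : ∀ v t s, v (r t s) ≤ B v ^ (N + 1)
  int : ∀ t s, IsIntegral ℤ ((d : K) ^ (N + 1) * r t s)
  exp : ∀ s : σ → ℕ, (∀ i, s i ≤ N) →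
    (∏ i, X i ^ s i : MvPolynomial σ K) = ∑ t, C (r t s) * E t

/-- the norms of the functions `E t` near the centre `f` (multidegrees `w`) -/
def CenN [Fintype σ] {J : Type} (f : J → MvPolynomial σ K) (w : J → σ → ℕ)
    (B : AbsoluteValue K ℝ → ℝ) (N : ℕ) {T : Type} (gr : T → ℕ) (E : T → MvPolynomial σ K) :
    Prop :=
  ∀ (v : AbsoluteValue K ℝ) (A : Type) [CommRing A] [Algebra K A] (Nm : A → ℝ → Prop),
    NFr v Nm → ∀ (X : σ → A) (a : σ → ℝ) (ρ : ℝ), (∀ i, 1 ≤ a i) → 0 < ρ → ρ ≤ 1 →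
    (∀ i, Nm (X i) (a i)) → (∀ j, Nm (aeval X (f j)) (ρ * ∏ i, a i ^ w j i)) →
    ∀ t, Nm (aeval X (E t)) (B v ^ (N + 1) * (∏ i, a i ^ N) * ρ ^ gr t)

/-- `ρ_v(x) = min(1, max_j |f_j(x)|_v / ∏_i M_v(x_i)^(w j i))` -/
def rhoW [Fintype σ] {J : Type} (w : J → σ → ℕ) (f : J → MvPolynomial σ K)
    (v : AbsoluteValue K ℝ) (x : σ → K) : ℝ :=
  min 1 (⨆ j, v (eval x (f j)) / ∏ i, Mv v (x i) ^ w j i)

/-- `∑_v log (1 / ρ_v(x))` -/
def cW [AdmissibleAbsValues K] [Fintype σ] {J : Type} (w : J → σ → ℕ)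
    (f : J → MvPolynomial σ K) (x : σ → K) : ℝ :=
  PS fun v => - Real.log (rhoW w f v x)

/-- the radii of the Taylor expansions -/
def radW [Fintype σ] {J : Type} {n : ℕ} (w : J → σ → ℕ) (f : Fin n → J → MvPolynomial σ K)
    (b : ℝ) (v : AbsoluteValue K ℝ) (ξ : Fin n → σ → K) (h : Fin n × σ) : ℝ :=
  rhoW w (f h.1) v (ξ h.1) / (b * Mv v (ξ h.1 h.2) ^ 2)

/-- the product centre `g_i(X_i) = 0` for all `i` -/
def cenU (g : σ → Polynomial K) (i : σ) : MvPolynomial σ K :=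
  Polynomial.aeval (X i : MvPolynomial σ K) (g i)

/-- its multidegrees -/
def wU [DecidableEq σ] (D : ℕ) (i h : σ) : ℕ := if h = i then D else 0

end centre

/-- the key inequality with moving centres: the additional factor `∏_j (G j v) ^ ((4M+4) 4^(e j))` -/
def KeyW {K : Type} [Field K] {σ : Type} [Fintype σ] [DecidableEq σ] {J : Type} {n : ℕ}
    (W : σ → Affine K) (f : Fin n → J → MvPolynomial σ K) (w : J → σ → ℕ) (M δ k0 : ℕ)
    (x0 ψ0 : σ → K) (e : Fin n → ℕ) (c : Ix σ n M δ e → K) (B : AbsoluteValue K ℝ → ℝ)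
    (G : Fin n → AbsoluteValue K ℝ → ℝ) : Prop :=
  ∀ (v : AbsoluteValue K ℝ) (A : Type) [CommRing A] [Algebra K A] (N : A → ℝ → Prop), NFr v N →
    ∀ (X Ψ : Fin n → σ → A) (a : Fin n → σ → ℝ) (ρ : Fin n → ℝ) (s b : ℝ),
      OnB W X Ψ (cn A x0) (cn A ψ0) → (∀ j i, 1 ≤ a j i) → 1 ≤ b →
      (∀ j, 0 < ρ j ∧ ρ j ≤ 1) → (∀ j i, N (X j i) (a j i)) →
      (∀ j i, N (Ψ j i) (b * a j i ^ 2)) → (∀ i, v (ψ0 i) ≤ b * Mv v (x0 i) ^ 2) →
      (∀ j k, N (aeval (X j) (f j k)) (ρ j * ∏ i, a j i ^ w k i)) → (∀ α, v (c α) ≤ s) →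
      ∀ lam : Fin n → σ → Bool,
      N (PB (mapS A W) n M δ e (fun α => algebraMap K A (c α)) lam X Ψ (cn A x0) (cn A ψ0))
        (s * b ^ (2 * n * Fintype.card σ) *
          (B v ^ sqB e * ∏ j, G j v ^ ((4 * M + 4) * 4 ^ e j)) * keyV v M δ k0 e a ρ x0)

/-- the slow constants: `L` bounds `4 ^ e j * log (..)` -/
structure SlowW {K : Type} [Field K] [NumberField K] {n : ℕ} (e : Fin n → ℕ) (d : Fin n → ℕ)
    (G : Fin n → AbsoluteValue K ℝ → ℝ) (L : ℝ) : Prop where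
  pos : ∀ j, 0 < d j
  plc : ∀ j, PlC (G j)
  den : ∀ j, (d j : ℝ) ^ (4 ^ e j) ≤ Real.exp L
  arch : ∀ j (φ : K →+* ℂ), G j (NumberField.place φ) ^ (4 ^ e j) ≤ Real.exp L
  ps : ∀ j, (4 : ℝ) ^ e j * PS (fun v => Real.log (G j v)) ≤ L

/-- `n` points `x j` near the moving centres `f j`, a point `x0`, `2^(e j) x j` near `x0`; `q_j = 4^(e j)`, `T ~ |x0|² ~ q_j |x_j|²`;
`Q ≥ q_j` is the height of the centres times `q_j` (`Q = T / |y_0|²` for a base point `y_0`) -/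
structure AlW {K : Type} [Field K] [NumberField K] [DecidableEq K] {σ : Type} [Fintype σ]
    {W : σ → Affine K} (H : ∀ i, (W i).Point → ℝ) {J : Type} (w : J → σ → ℕ) (n : ℕ)
    (f : Fin n → J → MvPolynomial σ K) (θ ε K0 : ℝ) (x : Fin n → ∀ i, (W i).Point)
    (x0 : ∀ i, (W i).Point) (e : Fin n → ℕ) (T Q : ℝ) : Prop where
  nd : ∀ j i, x j i ≠ 0 ∧ ps (x j i) ≠ 0
  nd0 : ∀ i, x0 i ≠ 0 ∧ ps (x0 i) ≠ 0
  up : ∀ j, (4 : ℝ) ^ e j * nrs H (x j) ≤ 2 * T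
  up0 : nrs H x0 ≤ 2 * T
  near : ∀ j, nrs H ((2 ^ e j) • x j - x0) ≤ θ * T
  exc : ∀ j, ε * T ≤ (4 : ℝ) ^ e j * cW w (f j) (Pool.Agent.Helper60.HC.xs (x j))
  off : ∀ j, ∃ t, eval (Pool.Agent.Helper60.HC.xs (x j)) (f j t) ≠ 0
  big : ∀ j, K0 ≤ (4 : ℝ) ^ e j
  le : ∀ j, (4 : ℝ) ^ e j ≤ Q
  bigT : K0 * Q ≤ T
  grow : ∀ j j', j < j' → K0 * 4 ^ e j' ≤ 4 ^ e j

end

end Pool.Agent.Helper19.PM
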