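import Pool.Agent.Helper19.PM.Defs

/-!
# Project P1M (MP_a41896_nt, full case): goals

All goals are independent (named goals may be hypotheses of other goals as indicated).  Most of them are ADAPTATIONS of landed
files of `Pool/Agent/*/VN/` (theorem PG): copy the file, change the namespace, and replace
`f : J → MvPolynomial σ K` by `f : Fin n → J → MvPolynomial σ K`, `D` by the multidegrees `w`, `CenR f Df p c d B' N T gr E r` by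
`CenC p c (d j) (G j) N T gr E r` (and `CenN (f j) w (G j) N gr E` where the norms are used), `B' v` by `G j v`.
-/

set_option autoImplicit false

open MvPolynomial

namespace Pool.Agent.Helper19.PM

open WeierstrassCurve Height
open Pool.Agent.Helper29.BL Pool.Agent.Helper92.Ru Pool.Agent.Helper42.SG
open Pool.Agent.Helper77.SGC (N0)
open Pool.Agent.Helper60.HC (Lo nrs)
open Pool.Agent.Helper68.VN hiding xs Good nz

noncomputable section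

/-! ## The auxiliary function -/

/-- **SIEW** (the conditions can be solved). Hypothesis allowed: CARDB (`Helper68.VN`).
PROOF. As SIEB (landed: `Pool/Agent/Helper64/VN/SIEB.lean`, docstring in `Helper68/VN/GoalsA.lean`), with the constants `d j`, `G j` of the block. The row of block `j` is multiplied by
`E_j = D^(|σ| (M+1) 4^(e j)) * (d j)^(N0 M (e j) + 1)` (every row may have its own factor; `N0 M e + 1 ≤ (2M+2) 4^e`). Houses: `house x = sup_φ ‖φ x‖ = sup_φ (NumberField.place φ) x`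
(`NumberField.house_eq_sup'`); for the finitely many `φ` `B (place φ) ≤ b0` (`B` does not depend on the point), and `G j (place φ)^(N0+1) ≤ (G j (place φ)^(4^e j))^(2M+2) ≤ exp ((2M+2) L)`,
`(d j)^(N0+1) ≤ exp ((2M+2) L)` (`SlowW.den, arch`; `G, d ≥ 1`). So the entries are integral of house `≤ exp (C1 (sqB e + H + L))`; the rest is unchanged. -/
def SIEW : Prop :=
  ∀ (K : Type) [Field K] [NumberField K] (σ : Type) [Fintype σ] [DecidableEq σ]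
    (W : σ → Affine K) (B : AbsoluteValue K ℝ → ℝ) (D c : ℕ), (∀ v, 1 ≤ B v) →
    0 < D → ∀ (n M δ k0 p S0 : ℕ), 1 ≤ n → 1 ≤ δ → p ≤ Fintype.card σ →
    2 * n * 4 ^ Fintype.card σ * c * k0 ^ p * (2 * M + 2) ^ (Fintype.card σ - p) * S0 ≤
      (M + 1) ^ Fintype.card σ * δ ^ Fintype.card σ →
    ∃ C : ℝ, 0 ≤ C ∧ ∀ (e : Fin n → ℕ) (d : Fin n → ℕ) (G : Fin n → AbsoluteValue K ℝ → ℝ)
      (L : ℝ) (S : σ → ℕ → Bool → Fin 2 → ℕ → ℕ → ℕ → ℕ → K)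
      (T : Fin n → Type) [∀ j, Fintype (T j)] (gr : ∀ j, T j → ℕ)
      (E : ∀ j, T j → MvPolynomial σ K) (r : ∀ j, T j → (σ → ℕ) → K) (U : Type) [Fintype U]
      (ν : U → (σ → ℕ) → K) (x0 : σ → K) (H : ℝ), SlowW e d G L → 0 ≤ L → ArS W B D M S →
      (∀ j, CenC p c (d j) (G j) (N0 M (e j)) (T j) (gr j) (E j) (r j)) →
      Fintype.card U ≤ S0 → 0 ≤ H → RedD x0 (2 * M + δ) ν H →
      ∃ cc : Ix σ n M δ e → K, cc ≠ 0 ∧ (∀ α, IsIntegral ℤ (cc α)) ∧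
        (∀ α, NumberField.house (cc α) ≤ Real.exp (C * (sqB e + H + L))) ∧
        CondB S n M δ k0 e T gr r U ν cc

/-- **EXPW** (expansion of `P^λ`). No hypotheses.
PROOF. As BLKX + EXPB (landed: `Pool/Agent/Helper68/VN/BLKX.lean`, `Pool/Agent/Helper91/VN/EXPB.lean`); only `CenC.exp` is used. -/
def EXPW : Prop :=
  ∀ (K : Type) [Field K] [NumberField K] (σ : Type) [Fintype σ] [DecidableEq σ]
    (W : σ → Affine K) (B : AbsoluteValue K ℝ → ℝ) (D c n M δ p : ℕ) (e d : Fin n → ℕ)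
    (G : Fin n → AbsoluteValue K ℝ → ℝ)
    (S : σ → ℕ → Bool → Fin 2 → ℕ → ℕ → ℕ → ℕ → K) (T : Fin n → Type) [∀ j, Fintype (T j)]
    (gr : ∀ j, T j → ℕ) (E : ∀ j, T j → MvPolynomial σ K) (r : ∀ j, T j → (σ → ℕ) → K),
    ArS W B D M S → (∀ j, CenC p c (d j) (G j) (N0 M (e j)) (T j) (gr j) (E j) (r j)) →
    ∀ (cc : Ix σ n M δ e → K) (x0 ψ0 : σ → K) (A : Type) [CommRing A] [Algebra K A]
      (X Ψ : Fin n → σ → A), OnB W X Ψ (cn A x0) (cn A ψ0) → ∀ lam : Fin n → σ → Bool,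
      PB (mapS A W) n M δ e (fun α => algebraMap K A (cc α)) lam X Ψ (cn A x0) (cn A ψ0) =
        ∑ μ : Fin n → σ → Fin 2, ∑ t : ∀ j, T j,
          (∏ j, ((∏ i, (Ψ j i * cn A ψ0 i) ^ (μ j i).val) * aeval (X j) (E j (t j)))) *
            algebraMap K A (BrB S n M δ e T r cc x0 lam μ t)

/-- **BRNW** (size of the bracket). No hypotheses.
PROOF. As BRNB (landed: `Pool/Agent/Helper50/VN/BRNB.lean`; its lemma `block` is already for one block with any bound `b` of the `r t s`), with `G j v` instead of `B' v`. -/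
def BRNW : Prop :=
  ∀ (K : Type) [Field K] [NumberField K] (σ : Type) [Fintype σ] [DecidableEq σ]
    (W : σ → Affine K) (B : AbsoluteValue K ℝ → ℝ) (D c n M δ p : ℕ), (∀ v, 1 ≤ B v) → 1 ≤ δ →
    ∀ (e d : Fin n → ℕ) (G : Fin n → AbsoluteValue K ℝ → ℝ)
      (S : σ → ℕ → Bool → Fin 2 → ℕ → ℕ → ℕ → ℕ → K) (T : Fin n → Type)
      [∀ j, Fintype (T j)] (gr : ∀ j, T j → ℕ) (E : ∀ j, T j → MvPolynomial σ K)
      (r : ∀ j, T j → (σ → ℕ) → K), (∀ j v, 1 ≤ G j v) → ArS W B D M S →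
      (∀ j, CenC p c (d j) (G j) (N0 M (e j)) (T j) (gr j) (E j) (r j)) →
      ∀ (cc : Ix σ n M δ e → K) (x0 : σ → K) (v : AbsoluteValue K ℝ) (s : ℝ), 0 ≤ s →
        (∀ α, v (cc α) ≤ s) →
        ∀ (lam : Fin n → σ → Bool) (μ : Fin n → σ → Fin 2) (t : ∀ j, T j),
        v (BrB S n M δ e T r cc x0 lam μ t) ≤
          cst v ((Nat.card (Ix σ n M δ e) : ℝ) *
            ∏ j : Fin n, ((2 * M + 1 : ℝ) * (N0 M (e j) + 1)) ^ Fintype.card σ) * s *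
          (∏ j : Fin n, G j v ^ (N0 M (e j) + 1) * B v ^ (4 ^ e j * (M + 1) * Fintype.card σ)) *
          ((∏ j : Fin n, ∏ i, Mv v (x0 i) ^ (2 * M - 2 * (μ j i).val)) * ∏ i, Mv v (x0 i) ^ δ)

/-- **KEYW** (the key inequality). Hypotheses allowed: EXPW, VANB, BRNW, CNTB, NFB (all but EXPW, BRNW landed).
PROOF. As KEYB (landed: `Pool/Agent/Helper9/VN/KEYB.lean`, docstring in `Helper68/VN/GoalsA.lean`). The norms of the `E (t_j)` are `CenN` of the block: `≤ G j v^(N0+1) (∏_i a_ji)^(N0) ρ_j^(gr)`. The bracket has a factor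
`G j v^(N0+1)` too: together `G j v^(2 (N0+1)) ≤ G j v^((4M+4) 4^(e j))` (`N0 M e + 1 ≤ 4^e (2M+2)`, `G ≥ 1`). The place constant is `Bk v = cst v C * B v^((M+1) m)` (without `B'`). -/
def KEYW : Prop :=
  ∀ (K : Type) [Field K] [NumberField K] (σ : Type) [Fintype σ] [DecidableEq σ]
    (W : σ → Affine K) (B : AbsoluteValue K ℝ → ℝ) (D c : ℕ), PlC B →
    ∀ (J : Type) (w : J → σ → ℕ) (n M δ k0 p : ℕ), 1 ≤ n → 1 ≤ M → 1 ≤ δ →
    ∃ Bk : AbsoluteValue K ℝ → ℝ, PlC Bk ∧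
    ∀ (f : Fin n → J → MvPolynomial σ K) (e d : Fin n → ℕ) (G : Fin n → AbsoluteValue K ℝ → ℝ)
      (S : σ → ℕ → Bool → Fin 2 → ℕ → ℕ → ℕ → ℕ → K) (T : Fin n → Type)
      [∀ j, Fintype (T j)] (gr : ∀ j, T j → ℕ) (E : ∀ j, T j → MvPolynomial σ K)
      (r : ∀ j, T j → (σ → ℕ) → K) (U : Type) (ν : U → (σ → ℕ) → K) (x0 ψ0 : σ → K) (H : ℝ),
      (∀ j v, 1 ≤ G j v) → ArS W B D M S →
      (∀ j, CenC p c (d j) (G j) (N0 M (e j)) (T j) (gr j) (E j) (r j)) →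
      (∀ j, CenN (f j) w (G j) (N0 M (e j)) (gr j) (E j)) →
      RedD x0 (2 * M + δ) ν H →
      ∀ cc : Ix σ n M δ e → K, CondB S n M δ k0 e T gr r U ν cc →
        KeyW W f w M δ k0 x0 ψ0 e cc Bk G

/-- **AUXW**: the auxiliary function. From ARRB, SIEW, KEYW. -/
def AUXW : Prop :=
  ∀ (K : Type) [Field K] [NumberField K] (σ : Type) [Fintype σ] [DecidableEq σ]
    (W : σ → Affine K) (J : Type) (w : J → σ → ℕ) (p c : ℕ), p ≤ Fintype.card σ →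
    ∀ (n M δ k0 S0 : ℕ), 1 ≤ n → 1 ≤ M → 1 ≤ δ →
    2 * n * 4 ^ Fintype.card σ * c * k0 ^ p * (2 * M + 2) ^ (Fintype.card σ - p) * S0 ≤
      (M + 1) ^ Fintype.card σ * δ ^ Fintype.card σ →
    ∃ (C : ℝ) (Bk : AbsoluteValue K ℝ → ℝ), 0 ≤ C ∧ PlC Bk ∧
      ∀ (f : Fin n → J → MvPolynomial σ K) (e d : Fin n → ℕ)
        (G : Fin n → AbsoluteValue K ℝ → ℝ) (L : ℝ) (U : Type) [Fintype U]
        (ν : U → (σ → ℕ) → K) (x0 ψ0 : σ → K) (H : ℝ), SlowW e d G L → 0 ≤ L →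
        (∀ j, ∃ (T : Type) (_ : Fintype T) (gr : T → ℕ) (E : T → MvPolynomial σ K)
          (r : T → (σ → ℕ) → K), CenC p c (d j) (G j) (N0 M (e j)) T gr E r ∧
            CenN (f j) w (G j) (N0 M (e j)) gr E) →
        Fintype.card U ≤ S0 → 0 ≤ H → RedD x0 (2 * M + δ) ν H →
        ∃ cc : Ix σ n M δ e → K, cc ≠ 0 ∧ (∀ α, IsIntegral ℤ (cc α)) ∧
          (∀ α, NumberField.house (cc α) ≤ Real.exp (C * (sqB e + H + L))) ∧
          KeyW W f w M δ k0 x0 ψ0 e cc Bk G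

theorem auxw (hA : ARRB) (hS : SIEW) (hK : KEYW) : AUXW := by
  intro K _ _ σ _ _ W J w p c hp n M δ k0 S0 hn hM hδ hcount
  obtain ⟨B, D, hB, hD, hA⟩ := hA K σ W
  obtain ⟨S, hS'⟩ := hA M
  obtain ⟨C, hC, hSi⟩ := hS K σ W B D c (fun v => hB.one_le v) hD
    n M δ k0 p S0 hn hδ hp hcount
  obtain ⟨Bk, hBk, hKk⟩ := hK K σ W B D c hB J w n M δ k0 p hn hM hδ
  refine ⟨C, Bk, hC, hBk, fun f e d G L U _ ν x0 ψ0 H hsl hL hcen hU hH hred => ?_⟩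
  choose T hT gr E r hr1 hr2 using hcen
  obtain ⟨cc, h0, hi, hh, hc⟩ := hSi e d G L S T gr E r U ν x0 H hsl hL hS' hr1 hU hH hred
  exact ⟨cc, h0, hi, hh, hKk f e d G S T gr E r U ν x0 ψ0 H (fun j v => (hsl.plc j).one_le v)
    hS' hr1 hr2 hred cc hc⟩

/-! ## Taylor expansions -/

/-- **TAYFW** (a moving centre in the Taylor frame). Hypothesis allowed: FRPS (`Helper42.SG`, landed).
PROOF. As TAYF (landed: `Pool/Agent/Helper73/VN/TAYF.lean`, docstring in `Helper68/VN/GoalsT.lean`), for one block at a time: `f = f j`, `ρ = rhoW w f v (ξ j)`, `M_i = M_v(ξ j i)`, radii `r = ρ / (b M_i²)`, `b = B' v`. `ρ > 0` (some `f_k(ξ_j) ≠ 0`, finite supremum), `ρ ≤ 1`.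
`X j i = ξ_i + u_i`, `N(u_i) ≤ ρ M_i` if `b ≥ cst v 4 * B₁ v` (as there). For a monomial `X^g` of `f_k`, `g_i ≤ w k i`: `N(∏ (ξ_i + u_i)^(g_i) - ∏ ξ_i^(g_i)) ≤ C_v ρ ∏ M_i^(w k i)`; the coefficients of `f_k` are `≤ G_j v`, the number of monomials is `≤ ∏_i (w k i + 1)`, so
`N(f_k(X_j) - f_k(ξ_j)) ≤ B₂ v G_j v ρ ∏ M_i^(w k i)`, `B₂` depends on `w` only (`J` is finite). And `v(f_k(ξ_j)) ≤ B₃ v G_j v ρ ∏ M_i^(w k i)`: with `S_k := v(f_k(ξ_j)) / ∏ M_i^(w k i)`, `S_k ≤ S = sup S_k`, `S_k ≤ B₃ v G_j v` (trivial estimate), `ρ = min (1, S)`: if `S ≤ 1` then `S_k ≤ S = ρ ≤ B₃ G ρ`, otherwise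
`S_k ≤ B₃ G = B₃ G ρ`. `B' := B * (cst v 4 * B₁) * (B₂ + B₃)`. -/
def TAYFW : Prop :=
  ∀ (K : Type) [Field K] [NumberField K] (σ : Type) [Fintype σ] [DecidableEq σ]
    (W : σ → Affine K) (J : Type) [Fintype J] (w : J → σ → ℕ),
    ∀ B : AbsoluteValue K ℝ → ℝ, PlC B →
    ∃ B' : AbsoluteValue K ℝ → ℝ, PlC B' ∧ (∀ v, B v ≤ B' v) ∧
    ∀ (n : ℕ) (f : Fin n → J → MvPolynomial σ K) (G : Fin n → AbsoluteValue K ℝ → ℝ)
      (ξ ψ : Fin n → σ → K) (X Ψ : Fin n → σ → MvPowerSeries (Fin n × σ) K),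
      (∀ j k i, degreeOf i (f j k) ≤ w k i) → (∀ j v, 1 ≤ G j v) →
      (∀ j k m v, v (coeff m (f j k)) ≤ G j v) →
      TayB W ξ ψ X Ψ → (∀ j i, ψ j i ^ 2 = Bf (W i) (ξ j i)) →
      (∀ j, ∃ k, eval (ξ j) (f j k) ≠ 0) → ∀ (v : AbsoluteValue K ℝ) (j : Fin n) (k : J),
      NPS v (radW w f (B' v) v ξ) (aeval (X j) (f j k))
        (rhoW w (f j) v (ξ j) * (B' v * G j v * ∏ i, Mv v (ξ j i) ^ w k i))

/-- **TAYNW**: the Taylor frame. Hypotheses allowed: TAYX (landed, `Helper68.VN.TAYX`), TAYFW.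
PROOF. As TAYN (landed: `Pool/Agent/Helper95/VN/TAYN.lean`). Last line: `B' v * G j v * ∏ M_i^(w k i) ≤ ∏_i (B' v * G j v * M_i)^(w k i)` because `∑_i w k i ≥ 1` and `B', G ≥ 1`. -/
def TAYNW : Prop :=
  ∀ (K : Type) [Field K] [NumberField K] (σ : Type) [Fintype σ] [DecidableEq σ] [Nonempty σ]
    (W : σ → Affine K) (J : Type) [Fintype J] (w : J → σ → ℕ), (∀ k, ∃ i, 1 ≤ w k i) →
    ∃ B' : AbsoluteValue K ℝ → ℝ, PlC B' ∧
    ∀ (n : ℕ) (f : Fin n → J → MvPolynomial σ K) (G : Fin n → AbsoluteValue K ℝ → ℝ)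
      (ξ ψ : Fin n → σ → K), (∀ j k i, degreeOf i (f j k) ≤ w k i) → (∀ j v, 1 ≤ G j v) →
      (∀ j k m v, v (coeff m (f j k)) ≤ G j v) →
      (∀ j i, ψ j i ^ 2 = Bf (W i) (ξ j i) ∧ ψ j i ≠ 0) →
      (∀ j, ∃ k, eval (ξ j) (f j k) ≠ 0) →
      ∃ X Ψ : Fin n → σ → MvPowerSeries (Fin n × σ) K, TayB W ξ ψ X Ψ ∧
        ∀ v : AbsoluteValue K ℝ, (∀ j, 0 < rhoW w (f j) v (ξ j) ∧ rhoW w (f j) v (ξ j) ≤ 1) ∧
          (∀ h, 0 < radW w f (B' v) v ξ h) ∧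
          (∀ j i, NPS v (radW w f (B' v) v ξ) (X j i) (B' v * Mv v (ξ j i)) ∧
            NPS v (radW w f (B' v) v ξ) (Ψ j i) (B' v * Mv v (ξ j i) ^ 2)) ∧
          ∀ j k, NPS v (radW w f (B' v) v ξ) (aeval (X j) (f j k))
            (rhoW w (f j) v (ξ j) * ∏ i, (B' v * G j v * Mv v (ξ j i)) ^ w k i)

/-! ## Local and global estimate -/

/-- **LOCW** (the local estimate). Hypothesis allowed: FRPS.
PROOF. As LOCB (landed: `Pool/Agent/Helper31/VN/LOCB.lean`), with `KeyW`, `a j i = B' v * G j v * M_v(ξ j i)`, `b = B' v` (`N(Ψ) ≤ B' M² ≤ b a²`). The powers of `G j v`: `(4M+4) 4^(e j)` from `KeyW`, and `|σ| (2 q_j M + q_j + 2) ≤ |σ| (2M+3) q_j` from `(∏_i a_ji)^(2 q_j M + q_j + 2)` in `keyV`. -/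
def LOCW : Prop :=
  ∀ (K : Type) [Field K] [NumberField K] (σ : Type) [Fintype σ] [DecidableEq σ]
    (W : σ → Affine K) (J : Type) (w : J → σ → ℕ) (n M δ k0 : ℕ)
    (B B' B'' : AbsoluteValue K ℝ → ℝ), 1 ≤ n → PlC B → PlC B' → PlC B'' →
    ∃ Bt : AbsoluteValue K ℝ → ℝ, PlC Bt ∧
    ∀ (f : Fin n → J → MvPolynomial σ K) (G : Fin n → AbsoluteValue K ℝ → ℝ)
      (e : Fin n → ℕ) (c : Ix σ n M δ e → K) (ξ ψ ω : Fin n → σ → K) (x0 ψ0 : σ → K)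
      (X Ψ : Fin n → σ → MvPowerSeries (Fin n × σ) K) (α : Fin n × σ →₀ ℕ) (dl : K)
      (v : AbsoluteValue K ℝ) (r : Fin n × σ → ℝ) (ρ : Fin n → ℝ) (s : ℝ),
      KeyW W f w M δ k0 x0 ψ0 e c B G → (∀ j v, 1 ≤ G j v) → TayB W ξ ψ X Ψ →
      (∀ i, ψ0 i ^ 2 = Bf (W i) (x0 i)) →
      (∀ α, v (c α) ≤ s) → (∀ h, 0 < r h) → (∀ j, 0 < ρ j ∧ ρ j ≤ 1) →
      (∀ j i, NPS v r (X j i) (B' v * Mv v (ξ j i)) ∧ NPS v r (Ψ j i) (B' v * Mv v (ξ j i) ^ 2)) →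
      (∀ j k, NPS v r (aeval (X j) (f j k))
        (ρ j * ∏ i, (B' v * G j v * Mv v (ξ j i)) ^ w k i)) →
      (∀ i, v (ψ0 i) ≤ B' v * Mv v (x0 i) ^ 2) →
      (∀ j i, Mv v (ξ j i) ^ (2 * 4 ^ e j) * Mv v (x0 i) ^ 2 ≤ B'' v ^ (4 ^ e j) *
        max (v (lawP W e false ξ ψ x0 ψ0 j i).1) (v (lawP W e false ξ ψ x0 ψ0 j i).2) *
          Mv v (ω j i)) →
      (∀ lam : Fin n → σ → Bool, MvPowerSeries.coeff α (PT W n M δ e c lam X Ψ x0 ψ0) =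
        (∏ j, ∏ i, if lam j i = true then ω j i ^ M else 1) * dl) →
      v dl ≤ s * (Bt v ^ sqB e *
          ∏ j, G j v ^ ((4 * M + 4 + Fintype.card σ * (2 * M + 3)) * 4 ^ e j)) *
        (∏ j, ∏ i, (max (v (lawP W e false ξ ψ x0 ψ0 j i).1)
          (v (lawP W e false ξ ψ x0 ψ0 j i).2)) ^ M * Mv v (ξ j i) ^ (4 ^ e j + 2)) *
        (∏ j, ρ j ^ (k0 * 4 ^ e j)) * (∏ i, Mv v (x0 i) ^ δ) * ∏ h, (1 / r h) ^ α h

/-- **CHW** (`log ρ_v` is summable, `0 < ρ_v ≤ 1`). No hypotheses.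
PROOF. `f_k(x) ≠ 0`: `S_v := sup_j v(f_j(x)) / ∏_i M_v(x_i)^(w j i) ≥ v(f_k(x)) / ∏ .. > 0` (finite supremum, `le_ciSup`), so `0 < ρ_v ≤ 1`. `ρ_v = 1` for almost all nonarchimedean `v`: where `v(x_i) ≤ 1` for all `i` and `v(f_k(x)) = 1` the `k`-th quotient is `1`, so `S_v ≥ 1`.
(Compare CHB, landed: `Pool/Agent/Helper16/HC/CHB.lean`; finiteness of `{v : v y ≠ 1}` for `y ≠ 0`: `Pool/Agent/Helper29/BL/PS.lean`.) -/
def CHW : Prop :=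
  ∀ (K : Type) [Field K] [NumberField K] (σ : Type) [Fintype σ] (J : Type) [Fintype J]
    (w : J → σ → ℕ) (f : J → MvPolynomial σ K) (x : σ → K), (∃ k, eval x (f k) ≠ 0) →
    FS (fun v => Real.log (rhoW w f v x)) ∧ ∀ v : AbsoluteValue K ℝ,
      0 < rhoW w f v x ∧ rhoW w f v x ≤ 1

/-- **GLOBW** (the global inequality). Hypotheses allowed: HHO, CHW.
PROOF. As GLOBB (landed: `Pool/Agent/Helper57/VN/GLOBB.lean`): logarithms of the local inequality with `s = ⨆ α, v (c α)`, sum over the places; `PS (log ρ_v(ξ_j)) = - cW w (f j) (ξ j)` by definition (`PS` of `- g`). The additional factor gives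
`∑_j (4M + 4 + m (2M+3)) 4^(e j) PS (log (G j))` (`FS` from `PlC (G j)`). `C` = maximum of `PS (log Bt)`, `PS (log B')`, `[K:ℚ]`, `4M + 4 + m (2M+3)`. -/
def GLOBW : Prop :=
  ∀ (K : Type) [Field K] [NumberField K] (σ : Type) [Fintype σ] [DecidableEq σ]
    (J : Type) [Fintype J] (w : J → σ → ℕ) (n M δ k0 : ℕ) (Bt B' : AbsoluteValue K ℝ → ℝ),
    PlC Bt → PlC B' → ∃ C : ℝ, 0 ≤ C ∧
    ∀ (f : Fin n → J → MvPolynomial σ K) (G : Fin n → AbsoluteValue K ℝ → ℝ)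
      (e : Fin n → ℕ) (ι : Type) [Finite ι] (c : ι → K) (A : ℝ) (ξ : Fin n → σ → K)
      (x0 : σ → K) (lo : Fin n → σ → K × K) (α : Fin n × σ →₀ ℕ) (dl : K),
      (∀ j, PlC (G j)) → c ≠ 0 → 0 ≤ A →
      (∀ i, IsIntegral ℤ (c i)) → (∀ i, NumberField.house (c i) ≤ Real.exp A) → dl ≠ 0 →
      (∀ j i, (lo j i).1 ≠ 0 ∨ (lo j i).2 ≠ 0) →
      (∀ j i, FS (fun v => Real.log (max (v (lo j i).1) (v (lo j i).2)))) →
      (∀ j, ∃ k, eval (ξ j) (f j k) ≠ 0) →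
      (∀ (v : AbsoluteValue K ℝ) (s : ℝ), (∀ i, v (c i) ≤ s) →
        v dl ≤ s * (Bt v ^ sqB e *
          ∏ j, G j v ^ ((4 * M + 4 + Fintype.card σ * (2 * M + 3)) * 4 ^ e j)) *
        (∏ j, ∏ i, (max (v (lo j i).1) (v (lo j i).2)) ^ M * Mv v (ξ j i) ^ (4 ^ e j + 2)) *
        (∏ j, rhoW w (f j) v (ξ j) ^ (k0 * 4 ^ e j)) * (∏ i, Mv v (x0 i) ^ δ) *
        ∏ h, (1 / radW w f (B' v) v ξ h) ^ α h) →
      ∑ j, (k0 : ℝ) * 4 ^ e j * cW w (f j) (ξ j) ≤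
        ∑ j, ∑ i, (M * PS (fun v => Real.log (max (v (lo j i).1) (v (lo j i).2))) +
          ((4 : ℝ) ^ e j + 2) * logHeight₁ (ξ j i)) + δ * ∑ i, logHeight₁ (x0 i) +
        ∑ h, (α h : ℝ) * (C + 2 * logHeight₁ (ξ h.1 h.2) + cW w (f h.1) (ξ h.1)) +
        C * (sqB e + A + ∑ j, (4 : ℝ) ^ e j * PS (fun v => Real.log (G j v)))

/-- **NUMW** (numbers; `Q ≥ q_j` instead of the maximum). No hypotheses.
PROOF. As NUMB (landed: `Pool/Agent/Helper14/VN/NUMB.lean`), where `∃ j, q j = q0` is used only for `1 ≤ q0`, which also follows from `1 ≤ q j ≤ q0`. -/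
def NUMW : Prop :=
  ∀ (m n M δ k0 : ℕ) (ε θ c0 C CA : ℝ), 1 ≤ n → δ ≤ n → 0 < ε → 12 ≤ ((k0 : ℝ) - 1) * ε →
    0 ≤ θ → M * θ ≤ 1 → 0 ≤ c0 → 0 ≤ C → 0 ≤ CA → ∃ K0 : ℝ, ∀ (σ : Type) [Fintype σ]
      (q y g w : Fin n → ℝ) (Q T A X0s : ℝ) (X a : Fin n × σ → ℝ), Fintype.card σ = m →
      (∀ j, 1 ≤ q j ∧ q j ≤ Q ∧ K0 ≤ q j) → K0 * Q ≤ T →
      (∀ j, 0 ≤ y j ∧ q j * y j ≤ 2 * T) → (∀ j, ε * T ≤ q j * g j) → (∀ j, 0 ≤ g j) →
      (∀ j, w j ≤ θ * T + m * c0) → X0s ≤ 2 * T + m * c0 →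
      (∀ h, 0 ≤ X h) → (∀ j, ∑ i, X (j, i) ≤ y j + m * c0) → (∀ h, 0 ≤ a h) →
      ∑ h : Fin n × σ, a h / q h.1 < 1 → A ≤ CA * Q →
      ∑ j, (k0 : ℝ) * q j * g j ≤
        ∑ j, (M * w j + (q j + 2) * ∑ i, X (j, i)) + δ * X0s +
        ∑ h : Fin n × σ, a h * (C + 2 * X h + g h.1) + C * (∑ j, q j + A) → False

/-- **ZEW** (the zero estimate with `Q ≥ q_0`). Hypotheses allowed: NQX, QIXB, WRZ, BRU, ROWB (all landed).
PROOF. As ZEB (landed: `Pool/Agent/Helper81/VN/ZEB.lean`, docstring in `Helper68/VN/GoalsN.lean`) with `A := CA Q`, `H := CH Q` in BRU (`q_j ≤ q_0 ≤ Q`, `sqB e ≤ n Q`). -/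
def ZEW : Prop :=
  ∀ (K : Type) [Field K] [NumberField K] (σ : Type) [Fintype σ] [DecidableEq σ]
    (W : σ → Affine K), (∀ i, (W i).IsElliptic) → ∀ (n M δ : ℕ) (_ : 0 < n), 1 ≤ M → 1 ≤ δ →
    ∀ CA : ℝ, 0 ≤ CA → ∃ (D' : ℕ) (C' K1 : ℝ), 0 ≤ C' ∧
      ∀ (e : Fin n → ℕ) (Q : ℝ) (c : Ix σ n M δ e → K) (ξ ψ : Fin n → σ → K) (x0 ψ0 : σ → K)
        (X Ψ : Fin n → σ → MvPowerSeries (Fin n × σ) K), c ≠ 0 → (∀ α, IsIntegral ℤ (c α)) →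
        (∀ α, NumberField.house (c α) ≤ Real.exp (CA * Q)) → TayB W ξ ψ X Ψ →
        (∀ j i, ψ j i ≠ 0) → (∀ i, ψ0 i ^ 2 = Bf (W i) (x0 i)) → (∀ j, (4 : ℝ) ^ e j ≤ Q) →
        (∀ j j', j < j' → K1 * 4 ^ e j' ≤ 4 ^ e j) → (∀ j, K1 ≤ 4 ^ e j) →
        (∃ j, LowS D' (C' * (Q / 4 ^ e j)) (ξ j)) ∨ LowS (δ - 1) (C' * Q) x0 ∨
        ∃ α : Fin n × σ →₀ ℕ, wt (fun h : Fin n × σ => 4 ^ e h.1) α < 1 ∧
          MvPowerSeries.coeff α (PT W n M δ e c (fun _ _ => false) X Ψ x0 ψ0) ≠ 0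

/-! ## The univariate centre -/

/-- **DENW** (denominators, place functions of a number). No hypotheses.
PROOF. For `y ≠ 0` (`y = 0`: `d = 1`). The denominator ideal `𝔟 = {b ∈ 𝓞 : b y ∈ 𝓞}` is not zero, `d := |𝓞/𝔟|` (`Ideal.absNorm`) lies in `𝔟` (`Ideal.absNorm_mem`). `log d = ∑_(v ∤ ∞) log max(1, |y|_v) ≤ logHeight₁ y`. A simpler way which also
suffices: SCAL (landed; `Helper77.SGC.SCAL`, proof in `Pool/Agent/*/SGC*/`) for the polynomial `1 + y X_0`: `r ≠ 0`, `r` and `r y` integral, houses `≤ PH(1 + y X_0)^5 = mulHeight₁(y)^5`; `d := |N(r)|` (`Algebra.norm ℤ`), `N(r)/r` is integral, so `d y = ± (N(r)/r) (r y)` is integral, and `d ≤ house(r)^[K:ℚ]`.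
The second part: `‖φ y‖ ≤ mulHeight₁ y = exp (logHeight₁ y)` (one factor of the height; also in the docstring of SCAL). -/
def DENW : Prop :=
  ∀ (K : Type) [Field K] [NumberField K], ∃ C : ℝ, 0 ≤ C ∧ ∀ y : K,
    (∃ d : ℕ, 0 < d ∧ (d : ℝ) ≤ Real.exp (C * logHeight₁ y) ∧ IsIntegral ℤ ((d : K) * y)) ∧
    ∀ φ : K →+* ℂ, Mv (NumberField.place φ) y ≤ Real.exp (C * logHeight₁ y)

/-- **DIVW** (division in one variable). No hypotheses.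
PROOF. `g(t) ≠ 0`, `g` of degree `≤ D`, `D ≥ 1`, `u = g(t)⁻¹`. Let `Y = X - t`. Homogenise: `g = ∑_(k ≤ D) c_k Y^k` (Taylor coefficients of `g` at `t`: `c_k = ∑_l g_l binom(l,k) t^(l-k)`, `c_0 = g(t)`), a form of degree `D` in `(Y, Z)` is `∑ c_k Y^k Z^(D-k)`, and `c_0 Z^D = g - ∑_(k ≥ 1) c_k Y^k Z^(D-k)`.
CLAIM: for all `m` and `z ≤ m`: `Y^(m-z) (Z^z) = ∑_(a, b) ρ(m,z,a,b) g^a Y^(m - aD - b)`, sum over `b < D`, `a D + b ≤ m` (`Z = 1`). Induction on `z` (strong; all `m`): `z < D`: `a = 0`, `b = z`. `z ≥ D`: `Y^(m-z) Z^z = u * (g * (Y^((m-D)-(z-D)) Z^(z-D)) - ∑_(1 ≤ k ≤ D) c_k Y^(m-(z-k)) Z^(z-k))`: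
all terms have smaller `z`. The coefficients are polynomials in `u`, `c_k` of degree `≤ 2z`: `v(ρ(m,z,a,b)) ≤ ((D+1) ..)^z`-type bound `cst v (D+2)^z * (max(1,v u) * max(1, v c_k))^z`, and `d^(2z) ρ` is integral if `d u`, `d c_k` are integral.
Finally `X^s = (Y + t)^s = ∑_z binom(s,z) t^z Y^(s-z)`, and `Y^(s-z) = Y^(N - (N-s+z)) `, i.e. the claim with `m = N`, `z' = N - s + z ≤ N`: `X^s = ∑_z binom(s,z) t^z ∑_(a,b) ρ(N, N-s+z, a, b) g^a Y^(N-aD-b)`. `t ∈ {0, .., D}` is a natural number, `binom ≤ 2^N`, `t^z ≤ (D+1)^N`. (`R s a b := ∑_z ..`.)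
Bounds with `c_k`: `v(c_k) ≤ cst v ((D+1) (D+1)^D 2^D) * max_l v(g_l)`, and `d c_k` is integral if the `d g_l` are. -/
def DIVW : Prop :=
  ∀ D : ℕ, 1 ≤ D → ∃ c1 : ℕ, 1 ≤ c1 ∧ ∀ (K : Type) [Field K] [CharZero K] (g : Polynomial K)
    (t N : ℕ), g.natDegree ≤ D → t ≤ D → g.eval (t : K) ≠ 0 →
    ∃ R : ℕ → ℕ → ℕ → K,
      (∀ s ≤ N, (Polynomial.X ^ s : Polynomial K) =
        ∑ a ∈ Finset.range (N + 1), ∑ b ∈ Finset.range D, if a * D + b ≤ N then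
          Polynomial.C (R s a b) * (g ^ a * (Polynomial.X - Polynomial.C (t : K)) ^ (N - (a * D + b)))
        else 0) ∧
      (∀ (v : AbsoluteValue K ℝ) (G : ℝ) (s a b : ℕ), 1 ≤ G → (∀ k, v (g.coeff k) ≤ G) →
        v (g.eval (t : K))⁻¹ ≤ G → v (R s a b) ≤ (cst v c1 * G ^ 2) ^ (N + 1)) ∧
      ∀ (d s a b : ℕ), (∀ k, IsIntegral ℤ ((d : K) * g.coeff k)) →
        IsIntegral ℤ ((d : K) * (g.eval (t : K))⁻¹) → IsIntegral ℤ ((d : K) ^ (2 * (N + 1)) * R s a b)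

/-- **CENU** (the centre data of the moving product centre `g_i(X_i) = 0`). Hypotheses allowed: DENW, DIVW, NFB.
PROOF. For every `i` choose `t_i ∈ {0, .., D}` with `g_i(t_i) ≠ 0` (`g_i ≠ 0` has at most `D` zeros), DIVW for `g_i`, `t_i`, `N`. `T := σ → (Fin (N+1) × Fin D)`, restricted to the `t` with `a_i D + b_i ≤ N` (or put `r = 0` for the others; keep the subtype), `gr t = ∑_i a_i`,
`E t = ∏_i g_i(X_i)^(a_i) (X_i - t_i)^(N - (a_i D + b_i))`, `r t s = ∏_i R_i (s i) a_i b_i` (`0` if some `s i > N`). `exp`: multiply the identities (`Finset.prod_univ_sum`). `card ≤ ((N+1) D)^m ≤ c^(N+1)` (`N + 1 ≤ 2^(N+1)`), `bad`: `gr t < k` gives `a_i < k`: `≤ (k D)^m = D^m k^m (N+1)^0`. So `c := (2 D)^m + D^m`.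
`nrm`: `Nm (g_i(X_i)) ≤ ρ a_i^D` (`∏_h a_h^(wU D i h) = a_i^D`), `Nm (X_i - t_i) ≤ cst v (D+1) a_i` (NFB), so `Nm (E t) ≤ ∏_i (ρ a_i^D)^(a_i) (cst v (D+1) a_i)^(N - a_i D - b_i) ≤ (cst v (D+1))^(m N) ∏ a_i^N ρ^(gr t)`.
SLOW CONSTANTS: `y` runs over the coefficients `(g_i).coeff k`, `k ≤ D`, and the `u_i = g_i(t_i)⁻¹`: heights `≤ A`, resp. `logHeight₁ u_i = logHeight₁ (g_i(t_i)) ≤ C (1 + A)` (`Height.logHeight₁_inv`; height of a sum of products; or estimate `PS (log Mv v (u_i)) = logHeight₁ (u_i) = logHeight₁ (g_i(t_i))` and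
`Mv v (g_i(t_i)) ≤ cst v (..) ∏_k Mv v (coeff k)`). `G v := B0 v * (∏_y Mv v y)^(2m)` with a place constant `B0` depending on `m, D` only (`B0 v ≥ cst v (c1 (D+1))^m`; `PS_log_Mv`: `PS (log (Mv v y)) = logHeight₁ y`). `v (r t s) ≤ ∏_i (cst v c1 G'^2)^(N+1) ≤ G v^(N+1)`, `G' = ∏_y Mv v y`.
`d := (∏_y d_y)^(2 m)` (DENW). `place φ`: DENW. -/
def CENU : Prop :=
  ∀ (K : Type) [Field K] [NumberField K] (σ : Type) [Fintype σ] [DecidableEq σ] (D : ℕ), 1 ≤ D →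
    ∃ (c : ℕ) (C : ℝ), 1 ≤ c ∧ 0 ≤ C ∧ ∀ (g : σ → Polynomial K) (A : ℝ), 0 ≤ A →
      (∀ i, g i ≠ 0 ∧ (g i).natDegree ≤ D) → (∀ i k, logHeight₁ ((g i).coeff k) ≤ A) →
      ∃ (d : ℕ) (G : AbsoluteValue K ℝ → ℝ), 0 < d ∧ (d : ℝ) ≤ Real.exp (C * (1 + A)) ∧
        PlC G ∧ PS (fun v => Real.log (G v)) ≤ C * (1 + A) ∧
        (∀ φ : K →+* ℂ, G (NumberField.place φ) ≤ Real.exp (C * (1 + A))) ∧
        (∀ i k v, v ((g i).coeff k) ≤ G v) ∧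
        ∀ N : ℕ, ∃ (T : Type) (_ : Fintype T) (gr : T → ℕ) (E : T → MvPolynomial σ K)
          (r : T → (σ → ℕ) → K), CenC (Fintype.card σ) c d G N T gr E r ∧
            CenN (cenU g) (wU D) G N gr E

/-! ## Theorem PGW and P1M -/

/-- **PGW**: theorem PG with moving centres. Assembly by helper19 from AUXW, ZEW, TAYNW, LAWB, LOCW, GLOBW, NUMW and the landed lemmas used in `Helper68/VN/AsmPG.lean`. -/
def PGW : Prop :=
  ∀ (K : Type) [Field K] [NumberField K] [DecidableEq K] (σ : Type) [Fintype σ] [DecidableEq σ]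
    [Nonempty σ] (W : σ → Affine K), (∀ i, (W i).IsElliptic) → ∀ (H : ∀ i, (W i).Point → ℝ)
    (c₀ : ℝ), (∀ i, CanH (W i) (H i) c₀) → ∀ (J : Type) [Fintype J] (w : J → σ → ℕ),
    (∀ k, ∃ i, 1 ≤ w k i) → ∀ (p c : ℕ), p ≤ Fintype.card σ →
    ∀ (n M δ k0 S0 : ℕ) (ε C0 : ℝ), 1 ≤ M → 1 ≤ δ → δ ≤ n + 1 → 0 < ε →
    12 ≤ ((k0 : ℝ) - 1) * ε → 0 ≤ C0 →
    2 * (n + 1) * 4 ^ Fintype.card σ * c * k0 ^ p * (2 * M + 2) ^ (Fintype.card σ - p) * S0 ≤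
      (M + 1) ^ Fintype.card σ * δ ^ Fintype.card σ →
    ∃ (D' : ℕ) (C' θ K0 : ℝ), 0 < θ ∧ 0 ≤ C' ∧
      ∀ (f : Fin (n + 1) → J → MvPolynomial σ K) (x : Fin (n + 1) → ∀ i, (W i).Point)
        (x0 : ∀ i, (W i).Point) (e d : Fin (n + 1) → ℕ) (G : Fin (n + 1) → AbsoluteValue K ℝ → ℝ)
        (T Q : ℝ), AlW H w (n + 1) f θ ε K0 x x0 e T Q → SlowW e d G (C0 * Q) →
        (∀ j k i, degreeOf i (f j k) ≤ w k i) → (∀ j k m v, v (coeff m (f j k)) ≤ G j v) →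
        (∀ j (N : ℕ), ∃ (T : Type) (_ : Fintype T) (gr : T → ℕ) (E : T → MvPolynomial σ K)
          (r : T → (σ → ℕ) → K), CenC p c (d j) (G j) N T gr E r ∧ CenN (f j) w (G j) N gr E) →
        ∀ (U : Type) [Fintype U] (ν : U → (σ → ℕ) → K), Fintype.card U ≤ S0 →
        RedD (Pool.Agent.Helper60.HC.xs x0) (2 * M + δ) ν (C0 * Q) →
        (∃ j, LowS D' (C' * (Q / 4 ^ e j)) (Pool.Agent.Helper60.HC.xs (x j))) ∨
          LowS (δ - 1) (C' * Q) (Pool.Agent.Helper60.HC.xs x0)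

/-- **P1M**: theorem P1 in two factors with moving univariate centres. Assembly by helper19 from PGW, CENU (count: `count1` in `Helper68/VN/AsmP.lean`, `p = m = 2`). -/
def S_P1M : Prop :=
  ∀ (K : Type) [Field K] [NumberField K] [DecidableEq K] (σ : Type) [Fintype σ] [DecidableEq σ]
    (W : σ → Affine K), (∀ i, (W i).IsElliptic) → ∀ (H : ∀ i, (W i).Point → ℝ) (c₀ : ℝ),
    (∀ i, CanH (W i) (H i) c₀) → Fintype.card σ = 2 → ∀ (D : ℕ) (C0 ε : ℝ), 1 ≤ D → 0 ≤ C0 →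
    0 < ε → ∃ (n D' : ℕ) (C' θ K0 : ℝ), 0 < θ ∧ 0 ≤ C' ∧
      ∀ (f : Fin (n + 1) → σ → MvPolynomial σ K) (x : Fin (n + 1) → ∀ i, (W i).Point)
        (x0 : ∀ i, (W i).Point) (e : Fin (n + 1) → ℕ) (T Q : ℝ),
        AlW H (wU D) (n + 1) f θ ε K0 x x0 e T Q → (∀ j i, f j i ≠ 0) →
        (∀ j i k, degreeOf k (f j i) ≤ wU D i k) →
        (∀ j i m, logHeight₁ (coeff m (f j i)) ≤ C0 * (Q / 4 ^ e j)) →
        (∃ j, Lo Finset.univ D' (C' * (Q / 4 ^ e j)) (Pool.Agent.Helper60.HC.xs (x j))) ∨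
          Lo Finset.univ D' (C' * Q) (Pool.Agent.Helper60.HC.xs x0)

end

end Pool.Agent.Helper19.PM
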