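import Pool.Agent.Helper19.PM.Goals
import Pool.Agent.Helper92.PN.Forms

/-!
# Project P1S (MP_a41896_nt, plan TN of helper42): theorem P1 with SLOW coordinates

`S` : the slow coordinates.  The centre `V` (the common zeros of the `f j`, codimension `≥ 2`) is cut with `X_i = t_i`, `i ∈ S`; for `t` outside a fixed hypersurface `Δ = 0` the fibre
has codimension `≥ 2` in `∏_(i ∉ S) P¹`, with centre data whose constants are slow in `t`.
-/

set_option autoImplicit false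

open MvPolynomial

namespace Pool.Agent.Helper19.PM

open WeierstrassCurve Height
open Pool.Agent.Helper29.BL Pool.Agent.Helper92.Ru Pool.Agent.Helper42.SG
open Pool.Agent.Helper5.UN (CodimGT cH)
open Pool.Agent.Helper60.HC (Lo nrs)
open Pool.Agent.Helper92.PN (uu fl)
open Pool.Agent.Helper68.VN hiding xs Good nz

noncomputable section

section defs

variable {K : Type} [Field K] {σ : Type} [DecidableEq σ]

/-- the partial evaluation `X_i = t_i`, `i ∈ S` -/
def fT (S : Finset σ) (t : σ → K) (f : MvPolynomial σ K) : MvPolynomial {i // i ∉ S} K :=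
  aeval (fun i : σ => if h : i ∈ S then C (t i) else X ⟨i, h⟩) f

/-- the field `K(X_i : i ∈ S)` -/
abbrev KS (K : Type) [Field K] {σ : Type} (S : Finset σ) : Type :=
  FractionRing (MvPolynomial {i // i ∈ S} K)

/-- `f` as a polynomial in the `X_i`, `i ∉ S`, over `K(X_i : i ∈ S)` -/
def fG (S : Finset σ) (f : MvPolynomial σ K) : MvPolynomial {i // i ∉ S} (KS K S) :=
  aeval (fun i : σ => if h : i ∈ S then
    C (algebraMap (MvPolynomial {i // i ∈ S} K) (KS K S) (X ⟨i, h⟩)) else X ⟨i, h⟩) f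

end defs

/-- data for P1S: as `Al`, with the scale `Q`, and the coordinates in `S` are slow -/
structure AlS {K : Type} [Field K] [NumberField K] [DecidableEq K] {σ : Type} [Fintype σ]
    {W : σ → Affine K} (H : ∀ i, (W i).Point → ℝ) {J : Type} (D : ℕ) (f : J → MvPolynomial σ K)
    (S : Finset σ) (n : ℕ) (θ ε C0 K0 : ℝ) (x : Fin n → ∀ i, (W i).Point)
    (x0 : ∀ i, (W i).Point) (e : Fin n → ℕ) (T Q : ℝ) : Prop where
  nd : ∀ j i, x j i ≠ 0 ∧ ps (x j i) ≠ 0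
  nd0 : ∀ i, x0 i ≠ 0 ∧ ps (x0 i) ≠ 0
  up : ∀ j, (4 : ℝ) ^ e j * nrs H (x j) ≤ 2 * T
  up0 : nrs H x0 ≤ 2 * T
  near : ∀ j, nrs H ((2 ^ e j) • x j - x0) ≤ θ * T
  exc : ∀ j, ε * T ≤ (4 : ℝ) ^ e j * cH D f (Pool.Agent.Helper60.HC.xs (x j))
  off : ∀ j, ∃ t, eval (Pool.Agent.Helper60.HC.xs (x j)) (f t) ≠ 0
  slow : ∀ j, ∀ i ∈ S, logHeight₁ (Pool.Agent.Helper60.HC.xs (x j) i) ≤ C0 * (Q / 4 ^ e j)
  big : ∀ j, K0 ≤ (4 : ℝ) ^ e j
  le : ∀ j, (4 : ℝ) ^ e j ≤ Q
  bigT : K0 * Q ≤ T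
  grow : ∀ j j', j < j' → K0 * 4 ^ e j' ≤ 4 ^ e j

/-! ## Goals -/

/-- **CODS** (the codimension of the generic fibre). No hypotheses.
PROOF. `fG` is a ring homomorphism; degrees: `degreeOf i (fG S g) ≤ degreeOf i g` (substitute the monomials: the exponent of `X_i`, `i ∉ S`, does not change). Let `Ω ⊇ k = K(X_S)`, `y : {i // i ∉ S} → Fin 2 → Ω` a common zero (`hv .. (fG S (f j)) y = 0`). Put `y'_i := y_i` (`i ∉ S`), `y'_i := ![X_i, 1]` (`i ∈ S`, the image of `X_i` in `Ω`).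
Then `hv (algebraMap K Ω) (fun _ => D) (f j) y' = hv (algebraMap k Ω) (fun _ => D) (fG S (f j)) y = 0`: for a monomial `m` of `f j` the factors with `i ∈ S` are `X_i^(m i) * 1`; group the monomials with the same exponents outside `S` (`hv` is additive in `f` for degrees `≤ D`: `Helper5.UN` `G_HVB`; the sum over
the support may be replaced by the sum over any larger finite set). `CodimGT` for `f` gives `T`, `|T| + s < |σ|`, all `y'_i 0` algebraic over `K(T)`. So `trdeg_K K(y'_i 0 : i) ≤ |T|`; the `X_i`, `i ∈ S`, are algebraically independent over `K` and among the `y'_i 0`, so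
(`exists_isTranscendenceBasis_between`, exchange: `AlgebraicIndependent` sets have at most `|T|` elements) there is `T' ⊆ {y_i 0 : i ∉ S}` such that `{X_i} ∪ T'` is a transcendence basis of the `y'_i 0`, `|S| + |T'| ≤ |T|`, and all `y_i 0` are algebraic over `K({X_i} ∪ T')`, so over `k(T')`. `|T'| + s ≤ |T| - |S| + s < |σ| - |S|`. -/
def CODS : Prop :=
  ∀ (K : Type) [Field K] (σ : Type) [Fintype σ] [DecidableEq σ] (S : Finset σ) (D s : ℕ)
    (J : Type) (f : J → MvPolynomial σ K), (∀ j i, degreeOf i (f j) ≤ D) → CodimGT D f s →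
    (∀ j i, degreeOf i (fG S (f j)) ≤ D) ∧ CodimGT D (fun j => fG S (f j)) s

/-- **HEV** (height of a value). No hypotheses.
PROOF. `PS (log Mv v y) = logHeight₁ y` (`PS_log_Mv`, `Helper29/BL/PS.lean`). `Mv v (eval t P) ≤ B v * ∏_(i ∈ S) Mv v (t i) ^ (degreeOf i P)` with the place constant `B v = cst v (number of monomials) * ∏_m Mv v (coeff m P)`; take `log`, `PS`. -/
def HEV : Prop :=
  ∀ (K : Type) [Field K] [NumberField K] (σ : Type) [Fintype σ] [DecidableEq σ] (S : Finset σ)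
    (P : MvPolynomial σ K), (∀ i, i ∉ S → degreeOf i P = 0) → ∃ C : ℝ, 0 ≤ C ∧ ∀ t : σ → K,
      logHeight₁ (eval t P) ≤ C * (1 + ∑ i ∈ S, logHeight₁ (t i))

/-- **SPECS** (specialisation of the identities). Hypotheses allowed: CODS, HEV.
PROOF. `k = K(X_S)`, `R = K[X_S]`, `τ = {i // i ∉ S}`. `Pool.Agent.Helper92.PN.exists_mul` over the infinite field `k` for `fG S (f j)` (CODS): `c, y, k₁, H` over `k`. Finitely many elements of `k` occur as coefficients of `c`, `y`, `H`: common denominator `Δ₀ ∈ R`, `Δ₀ ≠ 0` (`IsLocalization.exist_integer_multiples_of_finset`-type):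
`c' = Δ₀ c`, `y' = Δ₀ y`, `H' = Δ₀ H` have coefficients in `R`, and `∑_s H'_s * uu (f) c' y' s = Δ₀² * monomial (fl a k₁ 0) 1` over `k`, so over `R` (`MvPolynomial τ R → MvPolynomial τ k` is injective; `fG S (f j)` has coefficients in `R`). Evaluate the coefficients at `t` (the ring homomorphism `R → K`, `X_i ↦ t i`; it maps
the polynomial over `R` of which `fG S (f j)` is the image to `fT S t (f j)`), `Δ := rename Subtype.val Δ₀`. If `Δ(t) ≠ 0` put `c_t := c'(t)`, `y_t := y'(t)`, `H_t := H'(t) / Δ(t)²`. Degrees: `degreeOf` does not grow. HEIGHTS: HEV for the finitely many coefficients of `c', y', H'` (renamed to `MvPolynomial σ K`) and `Δ`;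
`logHeight₁ (a / b²) ≤ logHeight₁ a + 2 logHeight₁ b` (`b ≠ 0`; `logHeight₁_inv`, `logHeight₁_mul_le`-type lemmas); the coefficients of `fT S t (f j)` are values at `t` of fixed polynomials. -/
def SPECS : Prop :=
  ∀ (K : Type) [Field K] [NumberField K] (σ : Type) [Fintype σ] [DecidableEq σ] (S : Finset σ)
    (J : Type) [Fintype J] (D s : ℕ) (f : J → MvPolynomial σ K),
    (∀ j i, degreeOf i (f j) ≤ D) → CodimGT D f s → s + 1 ≤ Fintype.card {i // i ∉ S} →
    ∃ (Δ : MvPolynomial σ K) (k₁ : ℕ) (C : ℝ), Δ ≠ 0 ∧ (∀ i, i ∉ S → degreeOf i Δ = 0) ∧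
      D ≤ k₁ ∧ 1 ≤ k₁ ∧ 0 ≤ C ∧ ∀ t : σ → K, eval t Δ ≠ 0 →
      (∀ j m, logHeight₁ (coeff m (fT S t (f j))) ≤ C * (1 + ∑ i ∈ S, logHeight₁ (t i))) ∧
      ∃ (c : Fin (s + 1) → J → K)
        (y : Fin (Fintype.card {i // i ∉ S} - (s + 1) + 1) → MvPolynomial {i // i ∉ S} K)
        (H : ({i // i ∉ S} → Bool) →
          Fin (s + 1) ⊕ Fin (Fintype.card {i // i ∉ S} - (s + 1) + 1) →
            MvPolynomial {i // i ∉ S} K),
        (∀ l i, degreeOf i (y l) ≤ D) ∧ (∀ a l i, degreeOf i (H a l) + D ≤ k₁) ∧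
        (∀ a : {i // i ∉ S} → Bool,
          ∑ l, H a l * uu (fun j => fT S t (f j)) c y l = monomial (fl a k₁ 0) 1) ∧
        (∀ l j, logHeight₁ (c l j) ≤ C * (1 + ∑ i ∈ S, logHeight₁ (t i))) ∧
        (∀ l m, logHeight₁ (coeff m (y l)) ≤ C * (1 + ∑ i ∈ S, logHeight₁ (t i))) ∧
        (∀ a l m, logHeight₁ (coeff m (H a l)) ≤ C * (1 + ∑ i ∈ S, logHeight₁ (t i)))

/-- **CENV** (the centre data with constants which depend only on the heights of the coefficients). Hypothesis allowed: DENW.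
PROOF. Copy `cen_pos` of `Pool/Agent/Helper92/PN/CenMain.lean` (everything after `obtain ⟨c, y, k₁, H, ..⟩ := hmul`): `c0 := 2^g₀ * L^|σ|` depends on `s, D, k₁, |σ|` only. Replace the constant `(cst v (g₀ + 1) * BH v H) * BU v c y` by a larger function `G v := B0 v * ∏_z Mv v z` (`z` runs over the numbers `c l j`,
`coeff m (y l)` (`m` in the box `≤ D`), `coeff m (H a l)` (`m` in the box `≤ k₁`) and `coeff m (f j)` (`m ≤ D`), with exponents `1`; note that `wc v s x` is at most `cst v (#s + 1)` times `∏ Mv v (x i)`), `B0 v = cst v (large constant)` depends on `s, D, k₁, |σ|, |J|` only. `PS (log G) = PS (log B0) + ∑_z logHeight₁ z ≤ C (1 + A)` (`PS_log_Mv`);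
`G (place φ) ≤ exp (C (1 + A))` by the second part of DENW. Denominators: `d := ∏` of the DENW-denominators of the coefficients of `H` (instead of `exists_den_nat`); a product of denominators is a denominator of each. -/
def CENV : Prop :=
  ∀ (K : Type) [Field K] [NumberField K] (σ : Type) [Fintype σ] (J : Type) [Fintype J]
    (D s k₁ : ℕ), s + 1 ≤ Fintype.card σ → 1 ≤ D → D ≤ k₁ → 1 ≤ k₁ →
    ∃ (c0 : ℕ) (C : ℝ), 1 ≤ c0 ∧ 0 ≤ C ∧
    ∀ (f : J → MvPolynomial σ K) (c : Fin (s + 1) → J → K)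
      (y : Fin (Fintype.card σ - (s + 1) + 1) → MvPolynomial σ K)
      (H : (σ → Bool) → Fin (s + 1) ⊕ Fin (Fintype.card σ - (s + 1) + 1) → MvPolynomial σ K)
      (A : ℝ), 0 ≤ A → (∀ j i, degreeOf i (f j) ≤ D) → (∀ l i, degreeOf i (y l) ≤ D) →
      (∀ a l i, degreeOf i (H a l) + D ≤ k₁) →
      (∀ a : σ → Bool, ∑ l, H a l * uu f c y l = monomial (fl a k₁ 0) 1) →
      (∀ j m, logHeight₁ (coeff m (f j)) ≤ A) → (∀ l j, logHeight₁ (c l j) ≤ A) →
      (∀ l m, logHeight₁ (coeff m (y l)) ≤ A) → (∀ a l m, logHeight₁ (coeff m (H a l)) ≤ A) →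
      ∃ (d : ℕ) (G : AbsoluteValue K ℝ → ℝ), 0 < d ∧ (d : ℝ) ≤ Real.exp (C * (1 + A)) ∧
        PlC G ∧ PS (fun v => Real.log (G v)) ≤ C * (1 + A) ∧
        (∀ φ : K →+* ℂ, G (NumberField.place φ) ≤ Real.exp (C * (1 + A))) ∧
        (∀ j m v, v (coeff m (f j)) ≤ G v) ∧
        ∀ N : ℕ, ∃ (T : Type) (_ : Fintype T) (gr : T → ℕ) (E : T → MvPolynomial σ K)
          (r : T → (σ → ℕ) → K), CenC (s + 1) c0 d G N T gr E r ∧
            CenN f (fun _ _ => D) G N gr E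

/-- **CWS** (comparison of the heights of the centre). Hypothesis allowed: CHW, S_CHB (`Helper60.HC`, landed).
PROOF. `eval (x on {i ∉ S}) (fT S x g) = eval x g`. For every `v`: with `s_v = ⨆ v(f_j(x)) > 0` (finite supremum, some `f_j(x) ≠ 0`), `(∏_σ M_i)^D / s_v = (∏_(i ∈ S) M_i)^D * ((∏_(i ∉ S) M_i)^D / s_v)`, so `log⁺ ≤ D ∑_(i ∈ S) log M_i + log⁺ ((∏_(i ∉ S) M_i)^D / s_v)`, and the last term is `- log (rhoW ..)`
(`rhoW = min 1 (s_v / (∏_(i ∉ S) M_i)^D)`: a supremum divided by a constant). Sum over the places: `PS_mono`, `PS_add` (`FS`: CHW, `FS` of `log Mv`), `PS_log_Mv`. -/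
def CWS : Prop :=
  ∀ (K : Type) [Field K] [NumberField K] (σ : Type) [Fintype σ] [DecidableEq σ] (S : Finset σ)
    (J : Type) [Fintype J] (D : ℕ) (f : J → MvPolynomial σ K) (x : σ → K),
    (∀ j i, degreeOf i (f j) ≤ D) → (∃ j, eval x (f j) ≠ 0) →
    (∀ g : MvPolynomial σ K, eval (fun i : {i // i ∉ S} => x i.1) (fT S x g) = eval x g) ∧
    (∀ j i, degreeOf i (fT S x (f j)) ≤ D) ∧
    cH D f x ≤ cW (fun _ _ => D) (fun j => fT S x (f j)) (fun i : {i // i ∉ S} => x i.1) +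
      D * ∑ i ∈ S, logHeight₁ (x i)

/-- **EMS** (at most one free coordinate: the fibre is empty). Hypotheses allowed: S_ELOC2 (`Helper60.HC`, landed), HEV.
PROOF. ELOC2 with `J := S` (`|σ| ≤ |S| + s`): `P ≠ 0` in the variables of `S`, `v(P(x)) (∏ M_i)^D ≤ B_v (∏_(i ∈ S) M_i)^E ⨆ v(f_j(x))`. `Δ := P`. If `P(x) ≠ 0` then `log⁺ ((∏ M_i)^D / ⨆ v(f_j(x))) ≤ log B_v + E ∑_(i ∈ S) log M_i + log (Mv v (P(x))⁻¹)` (if the supremum is `0` the left side is `0`); sum over the places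
(`PS_mono`, `PS_add`, `PS_log_Mv`): `cH ≤ PS (log B) + E ∑_S logHeight₁ (x i) + logHeight₁ (P(x)⁻¹)`, and `logHeight₁ (P(x)⁻¹) = logHeight₁ (P(x)) ≤ C (1 + ∑_S ..)` (`Height.logHeight₁_inv`, HEV). (`PS_mono` needs no finiteness of the smaller side if the terms are `≥ 0` and bounded by a function with `FS`; compare EMPH, landed, `Pool/Agent/*/HC/EMPH.lean`.) -/
def EMS : Prop :=
  ∀ (K : Type) [Field K] [NumberField K] (σ : Type) [Fintype σ] [DecidableEq σ] (s D : ℕ)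
    (ι : Type) [Fintype ι] (f : ι → MvPolynomial σ K), (∀ j i, degreeOf i (f j) ≤ D) →
    CodimGT D f s → ∀ S : Finset σ, Fintype.card σ ≤ S.card + s →
    ∃ (Δ : MvPolynomial σ K) (C : ℝ), Δ ≠ 0 ∧ 0 ≤ C ∧ ∀ x : σ → K, eval x Δ ≠ 0 →
      cH D f x ≤ C * (1 + ∑ i ∈ S, logHeight₁ (x i))

/-- **P1S**: theorem P1 with slow coordinates. Assembly by helper19 from PGW, SPECS, CENV, CWS. -/
def S_P1S : Prop :=
  ∀ (K : Type) [Field K] [NumberField K] [DecidableEq K] (σ : Type) [Fintype σ] [DecidableEq σ]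
    (W : σ → Affine K), (∀ i, (W i).IsElliptic) → ∀ (H : ∀ i, (W i).Point → ℝ) (c₀ : ℝ),
    (∀ i, CanH (W i) (H i) c₀) → ∀ (D : ℕ) (J : Type) [Fintype J] (f : J → MvPolynomial σ K),
    (∀ j i, degreeOf i (f j) ≤ D) → CodimGT D f 1 → ∀ (S : Finset σ) (C0 ε : ℝ),
    2 ≤ Fintype.card {i // i ∉ S} → 1 ≤ D → 0 ≤ C0 → 0 < ε →
    ∃ (Δ : MvPolynomial σ K) (n D' : ℕ) (C' θ K0 : ℝ), Δ ≠ 0 ∧ 0 < θ ∧ 0 ≤ C' ∧
      ∀ (x : Fin (n + 1) → ∀ i, (W i).Point) (x0 : ∀ i, (W i).Point) (e : Fin (n + 1) → ℕ)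
        (T Q : ℝ), AlS H D f S (n + 1) θ ε C0 K0 x x0 e T Q →
        (∀ j, eval (Pool.Agent.Helper60.HC.xs (x j)) Δ ≠ 0) →
        (∃ j, Lo (Finset.univ \ S) D' (C' * (Q / 4 ^ e j)) (Pool.Agent.Helper60.HC.xs (x j))) ∨
          Lo (Finset.univ \ S) D' (C' * Q) (Pool.Agent.Helper60.HC.xs x0)

end

end Pool.Agent.Helper19.PM
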