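import Pool.Agent.Helper19.PM.AsmPG
import Pool.Agent.Helper19.PM.AsmP1M
import Pool.Agent.Helper68.VN.Main
import Pool.Agent.Helper34.PM.SIEW
import Pool.Agent.Helper4.PM.EXPW
import Pool.Agent.Helper13.PM.BRNW
import Pool.Agent.Helper93.PM.KEYW
import Pool.Agent.Helper30.PM.TAYFW
import Pool.Agent.Helper41.PM.TAYNW
import Pool.Agent.Helper25.PM.LOCW
import Pool.Agent.Helper12.PM.CHW
import Pool.Agent.Helper47.PM.GLOBW
import Pool.Agent.Helper9.PM.NUMW
import Pool.Agent.Helper26.PM.ZEW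
import Pool.Agent.Helper15.PM.DENW
import Pool.Agent.Helper36.PM.DIVW
import Pool.Agent.Helper69.PM.CENU

/-!
# Project P1M (MP_a41896_nt): theorems PGW and P1M from the packets
-/

set_option autoImplicit false

namespace Pool.Agent.Helper19.PM

open Pool.Agent.Helper42.SG
open Pool.Agent.Helper68.VN hiding xs Good nz

theorem th_KEYW : KEYW :=
  Pool.Agent.Helper93.PM.t_KEYW Pool.Agent.Helper4.PM.t_EXPW
    Pool.Agent.Helper57.VN.t_VANB Pool.Agent.Helper13.PM.t_BRNW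
    Pool.Agent.Helper95.VN.t_CNTB Pool.Agent.Helper35.SGC1.nfb

theorem th_AUXW : AUXW :=
  auxw Pool.Agent.Helper14.VN.ARRB.t_ARRB
    (Pool.Agent.Helper34.PM.t_SIEW Pool.Agent.Helper83.VN.CARDB.t_CARDB) th_KEYW

theorem th_ZEW : ZEW :=
  Pool.Agent.Helper26.PM.t_ZEW th_NQX
    Pool.Agent.Helper38.VN.QIXB.t_QIXB Pool.Agent.Helper7.VN.t_WRZ
    Pool.Agent.Helper81.VN.BRU.t_BRU (Pool.Agent.Helper45.VN.t_ROWB t_HHO)

theorem th_TAYNW : TAYNW :=
  Pool.Agent.Helper41.PM.t_TAYNW Pool.Agent.Helper65.VN.TAYX.t_TAYX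
    (Pool.Agent.Helper30.PM.t_TAYFW Pool.Agent.Helper65.SG.th_FRPS)

/-- Theorem PGW (theorem PG with moving centres), unconditional -/
theorem th_PGW : PGW :=
  pgw th_AUXW th_ZEW th_TAYNW
    (Pool.Agent.Helper55.VN.LAWB.t_LAWB Pool.Agent.Helper12.SGB.th_RPOL
      Pool.Agent.Helper31.SGT.t_MINC)
    (Pool.Agent.Helper25.PM.t_LOCW Pool.Agent.Helper65.SG.th_FRPS)
    (Pool.Agent.Helper47.PM.t_GLOBW t_HHO Pool.Agent.Helper12.PM.t_CHW)
    Pool.Agent.Helper9.PM.t_NUMW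
    Pool.Agent.Helper12.SGB.th_EDUP Pool.Agent.Helper12.SGB.th_ELAW
    Pool.Agent.Helper12.SGB.th_ELOC t_LAWH Pool.Agent.Helper12.SGB.th_EUP
    Pool.Agent.Helper40.SGE.mina

/-- **Theorem P1M** (theorem P1 in two factors with moving univariate centres), unconditional -/
theorem th_P1M : S_P1M :=
  p1m th_PGW (Pool.Agent.Helper69.PM.t_CENU Pool.Agent.Helper15.PM.t_DENW
    Pool.Agent.Helper36.PM.t_DIVW)

end Pool.Agent.Helper19.PM
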