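import Pool.Agent.Helper19.PM.Main
import Pool.Agent.Helper19.PM.AsmP1S
import Pool.Agent.Helper12.PM.CODS
import Pool.Agent.Helper25.PM.HEV
import Pool.Agent.Helper78.PM.SPECS
import Pool.Agent.Helper57.PM.CWS
import Pool.Agent.Helper52.PM.EMS
import Pool.Agent.Helper69.PM.CENV
import Pool.Agent.Helper60.HC.Main3

/-!
# Project P1S (MP_a41896_nt): the assembly
-/

set_option autoImplicit false

namespace Pool.Agent.Helper19.PM

theorem th_HEV : HEV := Pool.Agent.Helper25.PM.t_HEV

theorem th_CODS : CODS := Pool.Agent.Helper12.PM.t_CODS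

theorem th_SPECS : SPECS := Pool.Agent.Helper78.PM.t_SPECS th_CODS th_HEV

theorem th_CENV : CENV := Pool.Agent.Helper69.PM.t_CENV

theorem th_CWS : CWS := Pool.Agent.Helper57.PM.t_CWS

theorem th_EMS : EMS := Pool.Agent.Helper52.PM.t_EMS Pool.Agent.Helper60.HC.th_ELOC2 th_HEV

/-- **P1S**, unconditional -/
theorem th_P1S : S_P1S := p1s th_PGW th_SPECS th_CENV th_CWS

end Pool.Agent.Helper19.PM
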